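import Mathlib

/-!
P1, abstract part: sums over chains of a finite partially ordered set (nested loops), cuts.
-/

set_option autoImplicit false
set_option linter.unusedSectionVars false

namespace NUPZ

open Finset

open scoped Classical

variable {α : Type*} [PartialOrder α]

/-- chains. -/
def Ch (C : Finset α) : Prop := ∀ a ∈ C, ∀ b ∈ C, a < b ∨ a = b ∨ b < a

/-- the chains in A. -/
noncomputable def chs (A : Finset α) : Finset (Finset α) := A.powerset.filter Ch

lemma mem_chs {A C : Finset α} : C ∈ chs A ↔ C ⊆ A ∧ Ch C := by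
  unfold chs
  rw [Finset.mem_filter, Finset.mem_powerset]

lemma Ch.mono {C C' : Finset α} (h : Ch C) (h' : C' ⊆ C) : Ch C' :=
  fun a ha b hb => h a (h' ha) b (h' hb)

lemma chs_mono {A B : Finset α} (h : A ⊆ B) : chs A ⊆ chs B := by
  intro C hC
  rw [mem_chs] at hC ⊢
  exact ⟨hC.1.trans h, hC.2⟩

lemma chs_sub {A C C' : Finset α} (h : C ∈ chs A) (h' : C' ⊆ C) : C' ∈ chs A := by
  rw [mem_chs] at h ⊢
  exact ⟨h'.trans h.1, h.2.mono h'⟩

lemma empty_chs (A : Finset α) : ∅ ∈ chs A := by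
  rw [mem_chs]
  exact ⟨Finset.empty_subset _, fun a ha => absurd ha (Finset.notMem_empty a)⟩

/-- the sum over the chains in A of the product of the weights. -/
noncomputable def Z {R : Type*} [CommSemiring R] (w : α → R) (A : Finset α) : R := ∑ C ∈ chs A, ∏ l ∈ C, w l

lemma Z_empty {R : Type*} [CommSemiring R] (w : α → R) : Z w (∅ : Finset α) = 1 := by
  unfold Z
  have h : chs (∅ : Finset α) = {∅} := by
    ext C
    rw [mem_chs, Finset.mem_singleton, Finset.subset_empty]
    constructor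
    · exact fun h => h.1
    · rintro rfl
      exact ⟨rfl, fun a ha => absurd ha (Finset.notMem_empty a)⟩
  rw [h, Finset.sum_singleton, Finset.prod_empty]

/-- the union of chains in separated sets. -/
lemma union_ch {A B C1 C2 : Finset α} (hAB : ∀ a ∈ A, ∀ b ∈ B, a < b) (h1 : C1 ∈ chs A) (h2 : C2 ∈ chs B) :
    C1 ∪ C2 ∈ chs (A ∪ B) := by
  rw [mem_chs] at h1 h2 ⊢
  refine ⟨Finset.union_subset_union h1.1 h2.1, ?_⟩
  intro a ha b hb
  rw [Finset.mem_union] at ha hb
  rcases ha with ha | ha <;> rcases hb with hb | hb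
  · exact h1.2 a ha b hb
  · exact Or.inl (hAB a (h1.1 ha) b (h2.1 hb))
  · exact Or.inr (Or.inr (hAB b (h1.1 hb) a (h2.1 ha)))
  · exact h2.2 a ha b hb

lemma sep_disj {A B : Finset α} (hAB : ∀ a ∈ A, ∀ b ∈ B, a < b) : Disjoint A B := by
  rw [Finset.disjoint_left]
  intro a ha hb
  exact lt_irrefl a (hAB a ha a hb)

/-- product formula. -/
lemma sum_union {R : Type*} [CommSemiring R] {A B : Finset α} (hAB : ∀ a ∈ A, ∀ b ∈ B, a < b)
    (f g : Finset α → R) :
    ∑ C ∈ chs (A ∪ B), f (C ∩ A) * g (C ∩ B) = (∑ C ∈ chs A, f C) * ∑ C ∈ chs B, g C := by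
  have hd := sep_disj hAB
  have e1 : ∀ {C1 C2 : Finset α}, C1 ⊆ A → C2 ⊆ B → (C1 ∪ C2) ∩ A = C1 := by
    intro C1 C2 h1 h2
    ext a
    rw [Finset.mem_inter, Finset.mem_union]
    constructor
    · rintro ⟨h | h, h3⟩
      · exact h
      · exact absurd (h2 h) (Finset.disjoint_left.1 hd h3)
    · exact fun h => ⟨Or.inl h, h1 h⟩
  have e2 : ∀ {C1 C2 : Finset α}, C1 ⊆ A → C2 ⊆ B → (C1 ∪ C2) ∩ B = C2 := by
    intro C1 C2 h1 h2
    ext a
    rw [Finset.mem_inter, Finset.mem_union]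
    constructor
    · rintro ⟨h | h, h3⟩
      · exact absurd h3 (Finset.disjoint_left.1 hd (h1 h))
      · exact h
    · exact fun h => ⟨Or.inr h, h2 h⟩
  rw [Finset.sum_mul_sum, ← Finset.sum_product']
  refine Finset.sum_nbij' (fun C => (C ∩ A, C ∩ B)) (fun p => p.1 ∪ p.2) ?_ ?_ ?_ ?_ ?_
  · intro C hC
    rw [mem_chs] at hC
    rw [Finset.mem_product, mem_chs, mem_chs]
    exact ⟨⟨Finset.inter_subset_right, hC.2.mono Finset.inter_subset_left⟩,
      ⟨Finset.inter_subset_right, hC.2.mono Finset.inter_subset_left⟩⟩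
  · rintro ⟨C1, C2⟩ hp
    rw [Finset.mem_product] at hp
    exact union_ch hAB hp.1 hp.2
  · intro C hC
    rw [mem_chs] at hC
    show C ∩ A ∪ C ∩ B = C
    rw [← Finset.inter_union_distrib_left, Finset.inter_eq_left]
    exact hC.1
  · rintro ⟨C1, C2⟩ hp
    rw [Finset.mem_product, mem_chs, mem_chs] at hp
    show ((C1 ∪ C2) ∩ A, (C1 ∪ C2) ∩ B) = (C1, C2)
    rw [e1 hp.1.1 hp.2.1, e2 hp.1.1 hp.2.1]
  · intro C hC
    rfl

lemma prod_split {R : Type*} [CommSemiring R] {A B C : Finset α} (hd : Disjoint A B) (hC : C ⊆ A ∪ B) (w : α → R) :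
    ∏ l ∈ C, w l = (∏ l ∈ C ∩ A, w l) * ∏ l ∈ C ∩ B, w l := by
  rw [← Finset.prod_union]
  · rw [← Finset.inter_union_distrib_left, Finset.inter_eq_left.2 hC]
  · exact hd.mono Finset.inter_subset_right Finset.inter_subset_right

lemma Z_union {R : Type*} [CommSemiring R] {A B : Finset α} (hAB : ∀ a ∈ A, ∀ b ∈ B, a < b) (w : α → R) :
    Z w (A ∪ B) = Z w A * Z w B := by
  unfold Z
  rw [← sum_union hAB (fun C => ∏ l ∈ C, w l) (fun C => ∏ l ∈ C, w l)]
  apply Finset.sum_congr rfl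
  intro C hC
  exact prod_split (sep_disj hAB) (mem_chs.1 hC).1 w

/-- comparison of sums along an injection. -/
lemma sum_le_inj {ι κ : Type*} (s : Finset ι) (t : Finset κ) (φ : ι → κ) (h1 : ∀ i ∈ s, φ i ∈ t)
    (h2 : ∀ i ∈ s, ∀ j ∈ s, φ i = φ j → i = j) (f : ι → ℝ) (g : κ → ℝ) (hg : ∀ k ∈ t, 0 ≤ g k)
    (hfg : ∀ i ∈ s, f i ≤ g (φ i)) : ∑ i ∈ s, f i ≤ ∑ k ∈ t, g k := by
  calc ∑ i ∈ s, f i ≤ ∑ i ∈ s, g (φ i) := Finset.sum_le_sum hfg
    _ = ∑ k ∈ s.image φ, g k := (Finset.sum_image (fun i hi j hj => h2 i hi j hj)).symm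
    _ ≤ ∑ k ∈ t, g k := by
      apply Finset.sum_le_sum_of_subset_of_nonneg
      · intro k hk
        obtain ⟨i, hi, rfl⟩ := Finset.mem_image.1 hk
        exact h1 i hi
      · exact fun k hk _ => hg k hk

section real

variable {w : α → ℝ}

lemma prod_nn (hw : ∀ l, 0 ≤ w l) (C : Finset α) : 0 ≤ ∏ l ∈ C, w l := Finset.prod_nonneg (fun l _ => hw l)

lemma Z_mono (hw : ∀ l, 0 ≤ w l) {A B : Finset α} (h : A ⊆ B) : Z w A ≤ Z w B :=
  Finset.sum_le_sum_of_subset_of_nonneg (chs_mono h) (fun C _ _ => prod_nn hw C)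

lemma one_le_Z (hw : ∀ l, 0 ≤ w l) (A : Finset α) : 1 ≤ Z w A := by
  rw [← Z_empty w]
  exact Z_mono hw (Finset.empty_subset _)

lemma Z_pos (hw : ∀ l, 0 ≤ w l) (A : Finset α) : 0 < Z w A := lt_of_lt_of_le one_pos (one_le_Z hw A)

/-- removal of the elements of S. -/
lemma Z_remove (hw : ∀ l, 0 ≤ w l) (A S : Finset α) : Z w A ≤ Z w (A \ S) * ∏ l ∈ S, (1 + w l) := by
  unfold Z
  rw [Finset.prod_one_add, Finset.sum_mul_sum, ← Finset.sum_product']
  apply sum_le_inj _ _ (fun C => (C \ S, C ∩ S))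
  · intro C hC
    rw [mem_chs] at hC
    rw [Finset.mem_product, mem_chs, Finset.mem_powerset]
    exact ⟨⟨Finset.sdiff_subset_sdiff hC.1 (Finset.Subset.refl _), hC.2.mono Finset.sdiff_subset⟩,
      Finset.inter_subset_right⟩
  · intro C _ C' _ h
    have h1 := congrArg Prod.fst h
    have h2 := congrArg Prod.snd h
    simp only at h1 h2
    rw [← Finset.sdiff_union_inter C S, ← Finset.sdiff_union_inter C' S, h1, h2]
  · intro p _
    exact mul_nonneg (prod_nn hw _) (prod_nn hw _)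
  · intro C _
    apply le_of_eq
    show _ = (∏ l ∈ C \ S, w l) * ∏ l ∈ C ∩ S, w l
    rw [← Finset.prod_union (Finset.disjoint_sdiff_inter C S), Finset.sdiff_union_inter]

/-- increase of the weights. -/
lemma Z_add {v : α → ℝ} (hw : ∀ l, 0 ≤ w l) (hv : ∀ l, 0 ≤ v l) (A : Finset α) :
    Z (fun l => w l + v l) A ≤ Z w A * ∏ l ∈ A, (1 + v l) := by
  unfold Z
  have h1 : ∀ C ∈ chs A, ∏ l ∈ C, (w l + v l) = ∑ S ∈ C.powerset, (∏ l ∈ C \ S, w l) * ∏ l ∈ S, v l := by
    intro C _
    rw [Finset.prod_congr rfl (fun l _ => add_comm (w l) (v l)), Finset.prod_add]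
    exact Finset.sum_congr rfl (fun S _ => mul_comm _ _)
  rw [Finset.sum_congr rfl h1, Finset.prod_one_add, Finset.sum_mul_sum, Finset.sum_sigma', ← Finset.sum_product']
  apply sum_le_inj _ _ (fun p : (_ : Finset α) × Finset α => (p.1 \ p.2, p.2))
  · rintro ⟨C, S⟩ hp
    rw [Finset.mem_sigma, mem_chs, Finset.mem_powerset] at hp
    rw [Finset.mem_product, mem_chs, Finset.mem_powerset]
    exact ⟨⟨Finset.sdiff_subset.trans hp.1.1, hp.1.2.mono Finset.sdiff_subset⟩, hp.2.trans hp.1.1⟩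
  · rintro ⟨C, S⟩ hp ⟨C', S'⟩ hp' h
    rw [Finset.mem_sigma, Finset.mem_powerset] at hp hp'
    have h1 := congrArg Prod.fst h
    have h2 := congrArg Prod.snd h
    simp only at h1 h2 hp hp'
    subst h2
    have h3 : C = C' := by
      rw [← Finset.sdiff_union_of_subset hp.2, ← Finset.sdiff_union_of_subset hp'.2, h1]
    subst h3
    rfl
  · intro p _
    exact mul_nonneg (prod_nn hw _) (prod_nn hv _)
  · rintro ⟨C, S⟩ _
    exact le_rfl

end real

/-- the decomposition at the smallest element of C in S. -/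
lemma sum_min {R : Type*} [CommSemiring R] (A S : Finset α) (F : Finset α → R) :
    ∑ C ∈ (chs A).filter (fun C => (C ∩ S).Nonempty), F C =
      ∑ l ∈ A ∩ S, ∑ C1 ∈ chs (A.filter (fun a => l < a)), ∑ C2 ∈ chs ((A.filter (fun a => a < l)) \ S),
        F (insert l (C1 ∪ C2)) := by
  rcases isEmpty_or_nonempty α with hE | hE
  · have h1 : (chs A).filter (fun C => (C ∩ S).Nonempty) = ∅ := by
      rw [Finset.filter_eq_empty_iff]
      rintro C _ ⟨l, _⟩
      exact hE.false l
    have h2 : A ∩ S = ∅ := Finset.eq_empty_of_isEmpty _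
    rw [h1, h2, Finset.sum_empty, Finset.sum_empty]
  have hmin : ∀ C ∈ (chs A).filter (fun C => (C ∩ S).Nonempty), ∃ l ∈ C ∩ S, ∀ a ∈ C ∩ S, l ≤ a := by
    intro C hC
    rw [Finset.mem_filter, mem_chs] at hC
    obtain ⟨l, hl⟩ := (C ∩ S).exists_minimal hC.2
    refine ⟨l, hl.1, fun a ha => ?_⟩
    rcases hC.1.2 l (Finset.mem_inter.1 hl.1).1 a (Finset.mem_inter.1 ha).1 with h | h | h
    · exact h.le
    · exact h.le
    · exact hl.2 ha h.le
  choose! m hm1 hm2 using hmin
  rw [← Finset.sum_fiberwise_of_maps_to (s := (chs A).filter (fun C => (C ∩ S).Nonempty)) (t := A ∩ S) (g := m)]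
  swap
  · intro C hC
    have h1 := hm1 C hC
    rw [Finset.mem_filter, mem_chs] at hC
    rw [Finset.mem_inter] at h1 ⊢
    exact ⟨hC.1.1 h1.1, h1.2⟩
  apply Finset.sum_congr rfl
  intro l hl
  rw [Finset.mem_inter] at hl
  rw [← Finset.sum_product']
  refine Finset.sum_nbij' (fun C => (C.filter (fun a => l < a), C.filter (fun a => a < l)))
    (fun p => insert l (p.1 ∪ p.2)) ?_ ?_ ?_ ?_ ?_
  · intro C hC
    rw [Finset.mem_filter] at hC
    obtain ⟨hC1, hC2⟩ := hC
    have h2 := hm2 C hC1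
    have h1 := hm1 C hC1
    rw [hC2] at h1 h2
    rw [Finset.mem_filter, mem_chs] at hC1
    rw [Finset.mem_product, mem_chs, mem_chs]
    refine ⟨⟨Finset.filter_subset_filter _ hC1.1.1, hC1.1.2.mono (Finset.filter_subset _ _)⟩, ?_,
      hC1.1.2.mono (Finset.filter_subset _ _)⟩
    intro a ha
    simp only [Finset.mem_filter] at ha
    rw [Finset.mem_sdiff, Finset.mem_filter]
    refine ⟨⟨hC1.1.1 ha.1, ha.2⟩, fun haS => ?_⟩
    exact absurd (h2 a (Finset.mem_inter.2 ⟨ha.1, haS⟩)) (not_le_of_gt ha.2)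
  · rintro ⟨C1, C2⟩ hp
    rw [Finset.mem_product, mem_chs, mem_chs] at hp
    obtain ⟨⟨p1, p2⟩, p3, p4⟩ := hp
    have q1 : ∀ a ∈ C1, a ∈ A ∧ l < a := fun a ha => by
      have := p1 ha
      rwa [Finset.mem_filter] at this
    have q2 : ∀ a ∈ C2, (a ∈ A ∧ a < l) ∧ a ∉ S := fun a ha => by
      have := p3 ha
      rwa [Finset.mem_sdiff, Finset.mem_filter] at this
    have hmem : insert l (C1 ∪ C2) ∈ (chs A).filter (fun C => (C ∩ S).Nonempty) := by
      rw [Finset.mem_filter, mem_chs]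
      refine ⟨⟨?_, ?_⟩, ⟨l, Finset.mem_inter.2 ⟨Finset.mem_insert_self _ _, hl.2⟩⟩⟩
      · intro a ha
        rw [Finset.mem_insert, Finset.mem_union] at ha
        rcases ha with rfl | ha | ha
        · exact hl.1
        · exact (q1 a ha).1
        · exact (q2 a ha).1.1
      · intro a ha b hb
        rw [Finset.mem_insert, Finset.mem_union] at ha hb
        rcases ha with rfl | ha | ha <;> rcases hb with rfl | hb | hb
        · exact Or.inr (Or.inl rfl)
        · exact Or.inl (q1 b hb).2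
        · exact Or.inr (Or.inr (q2 b hb).1.2)
        · exact Or.inr (Or.inr (q1 a ha).2)
        · exact p2 a ha b hb
        · exact Or.inr (Or.inr ((q2 b hb).1.2.trans (q1 a ha).2))
        · exact Or.inl (q2 a ha).1.2
        · exact Or.inl ((q2 a ha).1.2.trans (q1 b hb).2)
        · exact p4 a ha b hb
    rw [Finset.mem_filter]
    refine ⟨hmem, ?_⟩
    have h1 := hm1 _ hmem
    have h2 := hm2 _ hmem l (Finset.mem_inter.2 ⟨Finset.mem_insert_self _ _, hl.2⟩)
    rw [Finset.mem_inter, Finset.mem_insert, Finset.mem_union] at h1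
    rcases h1.1 with h | h | h
    · exact h
    · exact absurd h2 (not_le_of_gt (q1 _ h).2)
    · exact absurd h1.2 (q2 _ h).2
  · intro C hC
    rw [Finset.mem_filter] at hC
    obtain ⟨hC1, hC2⟩ := hC
    have h1 := hm1 C hC1
    rw [hC2, Finset.mem_inter] at h1
    rw [Finset.mem_filter, mem_chs] at hC1
    ext a
    simp only [Finset.mem_insert, Finset.mem_union, Finset.mem_filter]
    constructor
    · rintro (rfl | h | h)
      · exact h1.1
      · exact h.1
      · exact h.1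
    · intro ha
      rcases hC1.1.2 a ha l h1.1 with h | h | h
      · exact Or.inr (Or.inr ⟨ha, h⟩)
      · exact Or.inl h
      · exact Or.inr (Or.inl ⟨ha, h⟩)
  · rintro ⟨C1, C2⟩ hp
    rw [Finset.mem_product, mem_chs, mem_chs] at hp
    obtain ⟨⟨p1, p2⟩, p3, p4⟩ := hp
    have q1 : ∀ a ∈ C1, a ∈ A ∧ l < a := fun a ha => by
      have := p1 ha
      rwa [Finset.mem_filter] at this
    have q2 : ∀ a ∈ C2, (a ∈ A ∧ a < l) ∧ a ∉ S := fun a ha => by
      have := p3 ha
      rwa [Finset.mem_sdiff, Finset.mem_filter] at this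
    show ((insert l (C1 ∪ C2)).filter (fun a => l < a), (insert l (C1 ∪ C2)).filter (fun a => a < l)) = (C1, C2)
    rw [Prod.mk.injEq]
    constructor
    · ext a
      simp only [Finset.mem_insert, Finset.mem_union, Finset.mem_filter]
      constructor
      · rintro ⟨rfl | h | h, h3⟩
        · exact absurd h3 (lt_irrefl _)
        · exact h
        · exact absurd ((q2 a h).1.2.trans h3) (lt_irrefl _)
      · exact fun h => ⟨Or.inr (Or.inl h), (q1 a h).2⟩
    · ext a
      simp only [Finset.mem_insert, Finset.mem_union, Finset.mem_filter]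
      constructor
      · rintro ⟨rfl | h | h, h3⟩
        · exact absurd h3 (lt_irrefl _)
        · exact absurd ((q1 a h).2.trans h3) (lt_irrefl _)
        · exact h
      · exact fun h => ⟨Or.inr (Or.inr h), (q2 a h).1.2⟩
  · intro C hC
    rw [Finset.mem_filter] at hC
    obtain ⟨hC1, hC2⟩ := hC
    have h1 := hm1 C hC1
    rw [hC2, Finset.mem_inter] at h1
    rw [Finset.mem_filter, mem_chs] at hC1
    congr 1
    ext a
    simp only [Finset.mem_insert, Finset.mem_union, Finset.mem_filter]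
    constructor
    · intro ha
      rcases hC1.1.2 a ha l h1.1 with h | h | h
      · exact Or.inr (Or.inr ⟨ha, h⟩)
      · exact Or.inl h
      · exact Or.inr (Or.inl ⟨ha, h⟩)
    · rintro (rfl | h | h)
      · exact h1.1
      · exact h.1
      · exact h.1

end NUPZ
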