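import Pool.Agent.NUF.P1.Renew

/-!
P1, abstract part: no zeros in a uniform neighbourhood of [0, X].
-/

set_option autoImplicit false
set_option linter.unusedSectionVars false

namespace NUPZ

open Finset

open scoped Classical

variable {α : Type*} [PartialOrder α] {D : Finset α} {wt : α → ℝ} {lo hi : α → ℕ} {C0 ρ : ℝ}

/-- the relative partition function. -/
noncomputable def rr (D : Finset α) (hi : α → ℕ) (wt : α → ℝ) (z : ℂ) (x : ℝ) (b : ℕ) : ℂ :=
  Z (wz wt z) (Lw D hi b) / ((Z (wx wt x) (Lw D hi b) : ℝ) : ℂ)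

lemma rr_mul (hS : Sys D wt lo hi C0 ρ) {z : ℂ} {x : ℝ} (hx : 0 ≤ x) (b : ℕ) :
    Z (wz wt z) (Lw D hi b) = ((Z (wx wt x) (Lw D hi b) : ℝ) : ℂ) * rr D hi wt z x b := by
  unfold rr
  rw [mul_div_cancel₀]
  exact_mod_cast (Z_pos (wx_nn hS hx) _).ne'

lemma rr_zero (D : Finset α) (hi : α → ℕ) (wt : α → ℝ) (z : ℂ) (x : ℝ) : rr D hi wt z x 0 = 1 := by
  unfold rr
  have h : Lw D hi 0 = ∅ := by
    ext l
    rw [mem_Lw]
    simp
  rw [h, Z_empty, Z_empty]
  simp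

/-- powers: comparison of the excess. -/
lemma pow_excess {κ μ : ℝ} (h1 : 1 ≤ κ) (h2 : κ ≤ μ) (n : ℕ) : (κ ^ n - 1) * (μ - 1) ≤ (κ - 1) * (μ ^ n - 1) := by
  rw [← geom_sum_mul κ n, ← geom_sum_mul μ n]
  have h3 : ∑ i ∈ range n, κ ^ i ≤ ∑ i ∈ range n, μ ^ i :=
    Finset.sum_le_sum (fun i _ => pow_le_pow_left₀ (by linarith) h2 i)
  have h4 : 0 ≤ (κ - 1) * (μ - 1) := mul_nonneg (by linarith) (by linarith)
  calc (∑ i ∈ range n, κ ^ i) * (κ - 1) * (μ - 1) = (∑ i ∈ range n, κ ^ i) * ((κ - 1) * (μ - 1)) := by ring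
    _ ≤ (∑ i ∈ range n, μ ^ i) * ((κ - 1) * (μ - 1)) := mul_le_mul_of_nonneg_right h3 h4
    _ = (κ - 1) * ((∑ i ∈ range n, μ ^ i) * (μ - 1)) := by ring

/-- one step of the induction. -/
lemma step (hS : Sys D wt lo hi C0 ρ) (hρ : 0 ≤ ρ) {z : ℂ} {x X0 μ κ c δ t t0 : ℝ} (hx : 0 ≤ x) (hxX : x + t0 ≤ X0)
    (hz : ‖z - x‖ ≤ t) (ht : t ≤ t0) (ht0 : 0 < t0) (hμ : 1 < μ) (hμρ : μ * ρ < 1)
    (hc : c = Real.exp (-(X0 * C0)))
    (hμc : 2 * X0 * (C0 * (μ - 1)) ≤ (1 - μ * ρ) * Real.exp (-(X0 * C0)))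
    (hκ : 1 < κ) (hκμ : κ ^ 2 ≤ μ) (hκc : κ ^ 2 - 1 ≤ (μ - 1) * (c / 2)) (hκt : Real.exp (t0 * C0) ≤ κ)
    (hδ : 0 < δ) (hδt : t / t0 * (2 * Real.exp (X0 * C0)) ≤ δ * (c / 2)) {a b : ℕ} (hb : b < a)
    (h1 : ∀ b' < b, ‖rr D hi wt z x b - rr D hi wt z x b'‖ ≤ δ * κ ^ (b - b') * ‖rr D hi wt z x b'‖)
    (h2 : ∀ b' ≤ b, ‖rr D hi wt z x b'‖ ≤ κ ^ (b - b') * ‖rr D hi wt z x b‖) :
    ‖rr D hi wt z x a - rr D hi wt z x b‖ ≤ δ * κ ^ (a - b) * ‖rr D hi wt z x b‖ := by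
  have hC := C0_nn hS
  have hxX' : x ≤ X0 := by linarith
  have hx0' : 0 ≤ x + t0 := by linarith
  have hw := wx_nn hS hx
  have hw0 := wx_nn hS hx0'
  obtain ⟨r, hr⟩ : ∃ r, r = rr D hi wt z x := ⟨_, rfl⟩
  rw [← hr] at h1 h2 ⊢
  obtain ⟨f, hf⟩ : ∃ f : ℕ → ℝ, f = fun b => Z (wx wt x) (Lw D hi b) := ⟨_, rfl⟩
  obtain ⟨F, hF⟩ : ∃ F : ℕ → ℝ, F = fun b => Z (wx wt (x + t0)) (Lw D hi b) := ⟨_, rfl⟩
  obtain ⟨hh, hhh⟩ : ∃ hh : ℕ → ℝ, hh = fun b' => H D lo hi (wx wt x) b' b a := ⟨_, rfl⟩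
  obtain ⟨HH, hHH⟩ : ∃ HH : ℕ → ℝ, HH = fun b' => H D lo hi (wx wt (x + t0)) b' b a := ⟨_, rfl⟩
  obtain ⟨Hz, hHz⟩ : ∃ Hz : ℕ → ℂ, Hz = fun b' => H D lo hi (wz wt z) b' b a := ⟨_, rfl⟩
  have fpos : ∀ b, 0 < f b := fun b => by rw [hf]; exact Z_pos hw _
  have Fpos : ∀ b, 0 < F b := fun b => by rw [hF]; exact Z_pos hw0 _
  have hnn : ∀ b', 0 ≤ hh b' := fun b' => by rw [hhh]; exact H_nn hw _ _ _
  have HHnn : ∀ b', 0 ≤ HH b' := fun b' => by rw [hHH]; exact H_nn hw0 _ _ _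
  -- identities
  have i1 : f a = ∑ b' ∈ range (b + 1), f b' * hh b' := by
    rw [hf, hhh]
    exact renewal hS (wx wt x) hb
  have i2 : (f a : ℂ) * r a = ∑ b' ∈ range (b + 1), (f b' : ℂ) * r b' * Hz b' := by
    have e : (f a : ℂ) * r a = Z (wz wt z) (Lw D hi a) := by
      rw [rr_mul hS hx a, hf, hr]
    rw [e, renewal hS (wz wt z) hb]
    apply Finset.sum_congr rfl
    intro b' _
    rw [rr_mul hS hx b', hf, hr, hHz]
  have i3 : ∑ b' ∈ range (b + 1), f b' * hh b' * μ ^ (b - b') ≤ 2 * f a := by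
    have := tail hS hρ hx hxX' hμ.le hμρ hμc b (Lw D hi a) (Lw_sub _ _ _)
    rw [renewal_mu hS _ μ hb] at this
    rw [hf, hhh]
    exact this
  have i4 : ∑ b' ∈ range (b + 1), F b' * HH b' * μ ^ (b - b') ≤ 2 * F a := by
    have := tail hS hρ hx0' hxX hμ.le hμρ hμc b (Lw D hi a) (Lw_sub _ _ _)
    rw [renewal_mu hS _ μ hb] at this
    rw [hF, hHH]
    exact this
  have i5 : c * f a ≤ f b * hh b := by
    have h3 := sub hS hx hb.le
    have e : f b * hh b = Z (wx wt x) (Lw D hi b) * Z (wx wt x) (Up D lo hi b a) := by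
      rw [hf, hhh]
      show _ * H D lo hi (wx wt x) b b a = _
      rw [H_self]
    rw [e, hf, hc]
    show Real.exp (-(X0 * C0)) * Z (wx wt x) (Lw D hi a) ≤ _
    have h4 : Real.exp (-(X0 * C0)) ≤ Real.exp (-(x * C0)) := by
      apply Real.exp_le_exp.2
      have := mul_le_mul_of_nonneg_right hxX' hC
      linarith
    calc Real.exp (-(X0 * C0)) * Z (wx wt x) (Lw D hi a) ≤ Real.exp (-(x * C0)) * Z (wx wt x) (Lw D hi a) :=
          mul_le_mul_of_nonneg_right h4 (Z_pos hw _).le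
      _ ≤ Real.exp (-(x * C0)) * (Z (wx wt x) (Lw D hi b) * Z (wx wt x) (Up D lo hi b a) * Real.exp (x * C0)) :=
          mul_le_mul_of_nonneg_left h3 (Real.exp_pos _).le
      _ = Z (wx wt x) (Lw D hi b) * Z (wx wt x) (Up D lo hi b a) * (Real.exp (-(x * C0)) * Real.exp (x * C0)) := by ring
      _ = _ := by
          rw [← Real.exp_add, neg_add_cancel, Real.exp_zero, mul_one]
  have i6 : ∀ b' ≤ b, F a * f b' ≤ Real.exp (X0 * C0) * κ ^ (a - b') * (F b' * f a) := by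
    intro b' hb'
    have h3 := ratio hS hx ht0.le hκt (b := b') (a := a) (by omega)
    rw [hF, hf]
    refine h3.trans ?_
    apply mul_le_mul_of_nonneg_right _ (mul_nonneg (Z_pos hw0 _).le (Z_pos hw _).le)
    apply mul_le_mul_of_nonneg_right _ (pow_nonneg (by linarith) _)
    exact Real.exp_le_exp.2 (mul_le_mul_of_nonneg_right hxX hC)
  have i7 : ∀ b', ‖Hz b' - (hh b' : ℂ)‖ ≤ t / t0 * HH b' := by
    intro b'
    rw [hHz, hhh, hHH]
    exact H_close hS hx hz ht ht0 b' b a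
  -- the difference
  have key : (f a : ℂ) * (r a - r b) = ∑ b' ∈ range (b + 1),
      ((f b' * hh b' : ℝ) * (r b' - r b) + (f b' : ℂ) * (Hz b' - (hh b' : ℂ)) * r b') := by
    have e : (f a : ℂ) * r b = ∑ b' ∈ range (b + 1), ((f b' * hh b' : ℝ) : ℂ) * r b := by
      rw [← Finset.sum_mul, i1]
      push_cast
      rfl
    rw [mul_sub, i2, e, ← Finset.sum_sub_distrib]
    apply Finset.sum_congr rfl
    intro b' _
    push_cast
    ring
  have hrb : 0 ≤ ‖r b‖ := norm_nonneg _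
  have hcpos : 0 < c := by rw [hc]; exact Real.exp_pos _
  have hκ2 : 1 ≤ κ ^ 2 := one_le_pow₀ hκ.le
  have ht' : 0 ≤ t := (norm_nonneg _).trans hz
  have hq : 0 ≤ t / t0 := div_nonneg ht' ht0.le
  -- first sum
  have T1 : ∑ b' ∈ range (b + 1), f b' * hh b' * ‖r b' - r b‖ ≤ δ * ‖r b‖ * ((1 - c / 2) * f a) := by
    have e1 : ∀ b' ∈ range (b + 1), f b' * hh b' * ‖r b' - r b‖ * (μ - 1) ≤
        δ * ‖r b‖ * ((if b' = b then 0 else f b' * hh b') * (μ - 1) + (κ ^ 2 - 1) *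
          (f b' * hh b' * μ ^ (b - b') - f b' * hh b')) := by
      intro b' hb'
      rw [Finset.mem_range] at hb'
      have p := mul_nonneg (fpos b').le (hnn b')
      by_cases hbb : b' = b
      · rw [if_pos hbb, hbb, sub_self, norm_zero, mul_zero, zero_mul, Nat.sub_self, pow_zero]
        apply le_of_eq
        ring
      · rw [if_neg hbb]
        have h3 := h1 b' (by omega)
        have h4 := h2 b' (by omega)
        rw [norm_sub_rev] at h3
        have h5 : ‖r b' - r b‖ ≤ δ * ‖r b‖ * (κ ^ 2) ^ (b - b') := by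
          calc ‖r b' - r b‖ ≤ δ * κ ^ (b - b') * ‖r b'‖ := h3
            _ ≤ δ * κ ^ (b - b') * (κ ^ (b - b') * ‖r b‖) := by
                apply mul_le_mul_of_nonneg_left h4
                exact mul_nonneg hδ.le (pow_nonneg (by linarith) _)
            _ = δ * ‖r b‖ * (κ ^ 2) ^ (b - b') := by
                rw [← pow_mul, two_mul, pow_add]
                ring
        have h6 := pow_excess hκ2 hκμ (b - b')
        calc f b' * hh b' * ‖r b' - r b‖ * (μ - 1)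
            ≤ f b' * hh b' * (δ * ‖r b‖ * (κ ^ 2) ^ (b - b')) * (μ - 1) := by
              apply mul_le_mul_of_nonneg_right _ (by linarith)
              exact mul_le_mul_of_nonneg_left h5 p
          _ = δ * ‖r b‖ * (f b' * hh b' * ((μ - 1) + ((κ ^ 2) ^ (b - b') - 1) * (μ - 1))) := by ring
          _ ≤ δ * ‖r b‖ * (f b' * hh b' * ((μ - 1) + (κ ^ 2 - 1) * (μ ^ (b - b') - 1))) := by
              apply mul_le_mul_of_nonneg_left _ (mul_nonneg hδ.le hrb)
              apply mul_le_mul_of_nonneg_left _ p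
              linarith
          _ = _ := by ring
    have e2 := Finset.sum_le_sum e1
    rw [← Finset.sum_mul, ← Finset.mul_sum, Finset.sum_add_distrib, ← Finset.sum_mul, ← Finset.mul_sum,
      Finset.sum_sub_distrib, ← i1] at e2
    have e3 : ∑ b' ∈ range (b + 1), (if b' = b then 0 else f b' * hh b') = f a - f b * hh b := by
      rw [i1, Finset.sum_range_succ, Finset.sum_range_succ, if_pos rfl, add_zero, add_sub_cancel_right]
      apply Finset.sum_congr rfl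
      intro b' hb'
      rw [Finset.mem_range] at hb'
      rw [if_neg (by omega)]
    rw [e3] at e2
    have hμ1 : 0 < μ - 1 := by linarith
    have e4 : (f a - f b * hh b) * (μ - 1) + (κ ^ 2 - 1) *
        (∑ b' ∈ range (b + 1), f b' * hh b' * μ ^ (b - b') - f a) ≤ (1 - c / 2) * f a * (μ - 1) := by
      have h3 : (κ ^ 2 - 1) * (∑ b' ∈ range (b + 1), f b' * hh b' * μ ^ (b - b') - f a) ≤
          (μ - 1) * (c / 2) * f a := by
        calc (κ ^ 2 - 1) * (∑ b' ∈ range (b + 1), f b' * hh b' * μ ^ (b - b') - f a) ≤ (κ ^ 2 - 1) * f a := by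
              apply mul_le_mul_of_nonneg_left _ (by linarith)
              linarith
          _ ≤ _ := mul_le_mul_of_nonneg_right hκc (fpos a).le
      have h4 : (f a - f b * hh b) * (μ - 1) ≤ (f a - c * f a) * (μ - 1) := by
        apply mul_le_mul_of_nonneg_right _ hμ1.le
        linarith
      calc _ ≤ (f a - c * f a) * (μ - 1) + (μ - 1) * (c / 2) * f a := add_le_add h4 h3
        _ = (1 - c / 2) * f a * (μ - 1) := by ring
    have e5 := e2.trans (mul_le_mul_of_nonneg_left e4 (mul_nonneg hδ.le hrb))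
    apply le_of_mul_le_mul_right _ hμ1
    calc _ ≤ _ := e5
      _ = _ := by ring
  -- second sum
  have T2 : ∑ b' ∈ range (b + 1), f b' * (t / t0 * HH b') * ‖r b'‖ ≤ δ * ‖r b‖ * (c / 2 * κ ^ (a - b) * f a) := by
    have e1 : ∀ b' ∈ range (b + 1), F a * (f b' * (t / t0 * HH b') * ‖r b'‖) ≤
        t / t0 * Real.exp (X0 * C0) * κ ^ (a - b) * ‖r b‖ * f a * (F b' * HH b' * μ ^ (b - b')) := by
      intro b' hb'
      rw [Finset.mem_range] at hb'
      have h3 := i6 b' (by omega)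
      have h4 := h2 b' (by omega)
      have h5 : (κ ^ 2) ^ (b - b') ≤ μ ^ (b - b') := pow_le_pow_left₀ (by linarith) hκμ _
      have p1 : 0 ≤ t / t0 * HH b' := mul_nonneg hq (HHnn b')
      have p2 : 0 ≤ κ ^ (a - b') := pow_nonneg (by linarith) _
      have p3 : 0 ≤ κ ^ (b - b') := pow_nonneg (by linarith) _
      have p4 : 0 ≤ Real.exp (X0 * C0) := (Real.exp_pos _).le
      have p5 := (fpos a).le
      have p6 := (Fpos b').le
      calc F a * (f b' * (t / t0 * HH b') * ‖r b'‖) = (F a * f b') * (t / t0 * HH b') * ‖r b'‖ := by ring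
        _ ≤ (Real.exp (X0 * C0) * κ ^ (a - b') * (F b' * f a)) * (t / t0 * HH b') * (κ ^ (b - b') * ‖r b‖) := by
            apply mul_le_mul _ h4 (norm_nonneg _)
            · positivity
            · exact mul_le_mul_of_nonneg_right h3 p1
        _ = t / t0 * Real.exp (X0 * C0) * κ ^ (a - b) * ‖r b‖ * f a * (F b' * HH b' * (κ ^ 2) ^ (b - b')) := by
            have e : κ ^ (a - b') = κ ^ (a - b) * κ ^ (b - b') := by
              rw [← pow_add]
              congr 1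
              omega
            rw [e, ← pow_mul, two_mul, pow_add]
            ring
        _ ≤ _ := by
            apply mul_le_mul_of_nonneg_left
            · exact mul_le_mul_of_nonneg_left h5 (mul_nonneg p6 (HHnn b'))
            · have : 0 ≤ κ ^ (a - b) := pow_nonneg (by linarith) _
              positivity
    have e2 := Finset.sum_le_sum e1
    rw [← Finset.mul_sum, ← Finset.mul_sum] at e2
    have pk : 0 ≤ κ ^ (a - b) := pow_nonneg (by linarith) _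
    have e3 : t / t0 * Real.exp (X0 * C0) * κ ^ (a - b) * ‖r b‖ * f a *
        ∑ b' ∈ range (b + 1), F b' * HH b' * μ ^ (b - b') ≤
        F a * (δ * ‖r b‖ * (c / 2 * κ ^ (a - b) * f a)) := by
      have p5 := (fpos a).le
      have p6 := (Fpos a).le
      calc _ ≤ t / t0 * Real.exp (X0 * C0) * κ ^ (a - b) * ‖r b‖ * f a * (2 * F a) := by
            apply mul_le_mul_of_nonneg_left i4
            have p4 : 0 ≤ Real.exp (X0 * C0) := (Real.exp_pos _).le
            positivity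
        _ = (t / t0 * (2 * Real.exp (X0 * C0))) * (κ ^ (a - b) * ‖r b‖ * f a * F a) := by ring
        _ ≤ (δ * (c / 2)) * (κ ^ (a - b) * ‖r b‖ * f a * F a) := by
            apply mul_le_mul_of_nonneg_right hδt
            positivity
        _ = _ := by ring
    exact le_of_mul_le_mul_left (e2.trans e3) (Fpos a)
  -- conclusion
  have fin : f a * ‖r a - r b‖ ≤ δ * ‖r b‖ * ((1 - c / 2) * f a) + δ * ‖r b‖ * (c / 2 * κ ^ (a - b) * f a) := by
    have e1 : f a * ‖r a - r b‖ = ‖(f a : ℂ) * (r a - r b)‖ := by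
      rw [norm_mul, Complex.norm_real, Real.norm_of_nonneg (fpos a).le]
    rw [e1, key]
    refine (norm_sum_le _ _).trans ?_
    refine le_trans ?_ (add_le_add T1 T2)
    rw [← Finset.sum_add_distrib]
    apply Finset.sum_le_sum
    intro b' _
    refine (norm_add_le _ _).trans ?_
    apply add_le_add
    · rw [norm_mul, Complex.norm_real, Real.norm_of_nonneg (mul_nonneg (fpos b').le (hnn b'))]
    · rw [norm_mul, norm_mul, Complex.norm_real, Real.norm_of_nonneg (fpos b').le]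
      apply mul_le_mul_of_nonneg_right _ (norm_nonneg _)
      exact mul_le_mul_of_nonneg_left (i7 b') (fpos b').le
  have pk : 1 ≤ κ ^ (a - b) := one_le_pow₀ hκ.le
  have hc1 : c ≤ 1 := by
    rw [hc]
    apply Real.exp_le_one_iff.2
    have : 0 ≤ X0 * C0 := mul_nonneg (by linarith) hC
    linarith
  apply le_of_mul_le_mul_left _ (fpos a)
  refine fin.trans ?_
  have e1 : (1 - c / 2) * f a ≤ (1 - c / 2) * κ ^ (a - b) * f a := by
    apply mul_le_mul_of_nonneg_right _ (fpos a).le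
    have : 0 ≤ 1 - c / 2 := by linarith
    nlinarith
  calc δ * ‖r b‖ * ((1 - c / 2) * f a) + δ * ‖r b‖ * (c / 2 * κ ^ (a - b) * f a)
      ≤ δ * ‖r b‖ * ((1 - c / 2) * κ ^ (a - b) * f a) + δ * ‖r b‖ * (c / 2 * κ ^ (a - b) * f a) := by
        have := mul_le_mul_of_nonneg_left e1 (mul_nonneg hδ.le hrb)
        linarith
    _ = f a * (δ * κ ^ (a - b) * ‖r b‖) := by ring

/-- the induction. -/
lemma claim (hS : Sys D wt lo hi C0 ρ) (hρ : 0 ≤ ρ) {z : ℂ} {x X0 μ κ c δ t t0 : ℝ} (hx : 0 ≤ x) (hxX : x + t0 ≤ X0)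
    (hz : ‖z - x‖ ≤ t) (ht : t ≤ t0) (ht0 : 0 < t0) (hμ : 1 < μ) (hμρ : μ * ρ < 1)
    (hc : c = Real.exp (-(X0 * C0)))
    (hμc : 2 * X0 * (C0 * (μ - 1)) ≤ (1 - μ * ρ) * Real.exp (-(X0 * C0)))
    (hκ : 1 < κ) (hκμ : κ ^ 2 ≤ μ) (hκc : κ ^ 2 - 1 ≤ (μ - 1) * (c / 2)) (hκt : Real.exp (t0 * C0) ≤ κ)
    (hδ : 0 < δ) (hδκ : δ * κ ≤ 1 - κ⁻¹) (hδt : t / t0 * (2 * Real.exp (X0 * C0)) ≤ δ * (c / 2)) (a : ℕ) :
    (∀ b < a, ‖rr D hi wt z x a - rr D hi wt z x b‖ ≤ δ * κ ^ (a - b) * ‖rr D hi wt z x b‖) ∧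
    ∀ b ≤ a, ‖rr D hi wt z x b‖ ≤ κ ^ (a - b) * ‖rr D hi wt z x a‖ := by
  induction a using Nat.strong_induction_on with
  | _ a ih =>
    have h1 : ∀ b < a, ‖rr D hi wt z x a - rr D hi wt z x b‖ ≤ δ * κ ^ (a - b) * ‖rr D hi wt z x b‖ := fun b hb =>
      step hS hρ hx hxX hz ht ht0 hμ hμρ hc hμc hκ hκμ hκc hκt hδ hδt hb (ih b hb).1 (ih b hb).2
    refine ⟨h1, fun b hb => ?_⟩
    rcases Nat.eq_or_lt_of_le hb with rfl | hb
    · rw [Nat.sub_self, pow_zero, one_mul]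
    · obtain ⟨p, rfl⟩ : ∃ p, a = p + 1 := ⟨a - 1, by omega⟩
      have h2 := h1 p (by omega)
      have e : p + 1 - p = 1 := by omega
      rw [e, pow_one] at h2
      have h3 := (ih p (by omega)).2 b (by omega)
      have hκ0 : 0 < κ := by linarith
      have h4 : ‖rr D hi wt z x p‖ ≤ κ * ‖rr D hi wt z x (p + 1)‖ := by
        have h5 : ‖rr D hi wt z x p‖ ≤ ‖rr D hi wt z x (p + 1)‖ + ‖rr D hi wt z x (p + 1) - rr D hi wt z x p‖ := by
          have h6 : rr D hi wt z x p = rr D hi wt z x (p + 1) - (rr D hi wt z x (p + 1) - rr D hi wt z x p) := by ring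
          calc ‖rr D hi wt z x p‖ = ‖rr D hi wt z x (p + 1) - (rr D hi wt z x (p + 1) - rr D hi wt z x p)‖ := by rw [← h6]
            _ ≤ _ := norm_sub_le _ _
        have h7 := norm_nonneg (rr D hi wt z x p)
        have h8 : κ⁻¹ * ‖rr D hi wt z x p‖ ≤ ‖rr D hi wt z x (p + 1)‖ := by nlinarith
        calc ‖rr D hi wt z x p‖ = κ * (κ⁻¹ * ‖rr D hi wt z x p‖) := by
              rw [← mul_assoc, mul_inv_cancel₀ hκ0.ne', one_mul]
          _ ≤ _ := mul_le_mul_of_nonneg_left h8 hκ0.le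
      have e2 : p + 1 - b = (p - b) + 1 := by omega
      rw [e2, pow_succ]
      calc ‖rr D hi wt z x b‖ ≤ κ ^ (p - b) * ‖rr D hi wt z x p‖ := h3
        _ ≤ κ ^ (p - b) * (κ * ‖rr D hi wt z x (p + 1)‖) := mul_le_mul_of_nonneg_left h4 (pow_nonneg hκ0.le _)
        _ = _ := by ring

/-- P1: NO ZEROS IN A UNIFORM NEIGHBOURHOOD OF [0, X]. -/
theorem zero_free {X C0 ρ : ℝ} (hX : 0 ≤ X) (hC0 : 0 ≤ C0) (hρ0 : 0 ≤ ρ) (hρ : ρ < 1) : ∃ t κ : ℝ, 0 < t ∧ 1 < κ ∧
    ∀ (α : Type) [PartialOrder α] (D : Finset α) (wt : α → ℝ) (lo hi : α → ℕ), Sys D wt lo hi C0 ρ →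
      ∀ (x : ℝ) (z : ℂ), 0 ≤ x → x ≤ X → ‖z - x‖ ≤ t → ∀ k : ℕ,
        Z (wx wt x) (Lw D hi k) ≤ κ ^ k * ‖Z (wz wt z) (Lw D hi k)‖ ∧
        ‖Z (wz wt z) (Lw D hi k)‖ ≤ κ ^ k * Z (wx wt x) (Lw D hi k) := by
  obtain ⟨X0, hX0⟩ : ∃ X0, X0 = X + 1 := ⟨_, rfl⟩
  obtain ⟨c, hc⟩ : ∃ c, c = Real.exp (-(X0 * C0)) := ⟨_, rfl⟩
  have hc0 : 0 < c := by rw [hc]; exact Real.exp_pos _
  have hX0' : 0 < X0 := by linarith
  -- mu
  obtain ⟨μ, hμ, hμρ, hμc⟩ : ∃ μ : ℝ, 1 < μ ∧ μ * ρ < 1 ∧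
      2 * X0 * (C0 * (μ - 1)) ≤ (1 - μ * ρ) * Real.exp (-(X0 * C0)) := by
    rw [← hc]
    obtain ⟨e, he⟩ : ∃ e, e = (1 - ρ) * c / (2 * (2 * X0 * C0 + c + 1)) := ⟨_, rfl⟩
    have hden : 0 < 2 * X0 * C0 + c + 1 := by
      have : 0 ≤ 2 * X0 * C0 := by positivity
      linarith
    have he0 : 0 < e := by
      rw [he]
      have : 0 < 1 - ρ := by linarith
      positivity
    have he1 : e * (2 * (2 * X0 * C0 + c + 1)) = (1 - ρ) * c := by
      rw [he]
      exact div_mul_cancel₀ _ (by positivity)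
    have hX : 0 ≤ X0 * C0 := by positivity
    have he2 : e * c ≤ (1 - ρ) * c / 2 := by nlinarith [mul_nonneg he0.le hX]
    have he3 : e ≤ (1 - ρ) / 2 := by
      have : e * c ≤ (1 - ρ) / 2 * c := by linarith
      exact le_of_mul_le_mul_right this hc0
    refine ⟨1 + e, by linarith, ?_, ?_⟩
    · nlinarith
    · have h1 : 2 * X0 * (C0 * (1 + e - 1)) = 2 * (e * (X0 * C0)) := by ring
      rw [h1]
      have h2 : (1 - ρ) * c / 2 ≤ (1 - (1 + e) * ρ) * c := by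
        have : (1 - ρ) / 2 ≤ 1 - (1 + e) * ρ := by nlinarith
        have := mul_le_mul_of_nonneg_right this hc0.le
        linarith
      have h3 : 2 * (e * (X0 * C0)) ≤ (1 - ρ) * c / 2 := by nlinarith
      linarith
  -- kappa
  obtain ⟨κ, hκ, hκμ, hκc⟩ : ∃ κ : ℝ, 1 < κ ∧ κ ^ 2 ≤ μ ∧ κ ^ 2 - 1 ≤ (μ - 1) * (c / 2) := by
    have hc1 : c ≤ 1 := by
      rw [hc]
      apply Real.exp_le_one_iff.2
      have : 0 ≤ X0 * C0 := by positivity
      linarith
    have hp : 0 < (μ - 1) * (c / 2) := mul_pos (by linarith) (by linarith)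
    refine ⟨Real.sqrt (1 + (μ - 1) * (c / 2)), ?_, ?_, ?_⟩
    · rw [Real.lt_sqrt (by norm_num)]
      linarith
    · rw [Real.sq_sqrt (by linarith)]
      nlinarith
    · rw [Real.sq_sqrt (by linarith)]
      linarith
  have hκ0 : 0 < κ := by linarith
  -- delta
  obtain ⟨δ, hδ, hδκ⟩ : ∃ δ : ℝ, 0 < δ ∧ δ * κ ≤ 1 - κ⁻¹ := by
    refine ⟨(1 - κ⁻¹) / κ, ?_, ?_⟩
    · apply div_pos _ hκ0
      have := inv_lt_one_of_one_lt₀ hκ
      linarith
    · rw [div_mul_cancel₀ _ hκ0.ne']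
  -- t0
  obtain ⟨t0, ht0, ht01, hκt⟩ : ∃ t0 : ℝ, 0 < t0 ∧ t0 ≤ 1 ∧ Real.exp (t0 * C0) ≤ κ := by
    have hl : 0 < Real.log κ := Real.log_pos hκ
    refine ⟨min 1 (Real.log κ / (C0 + 1)), lt_min one_pos (by positivity), min_le_left _ _, ?_⟩
    rw [← Real.exp_log hκ0]
    apply Real.exp_le_exp.2
    rw [Real.exp_log hκ0]
    calc min 1 (Real.log κ / (C0 + 1)) * C0 ≤ Real.log κ / (C0 + 1) * C0 :=
          mul_le_mul_of_nonneg_right (min_le_right _ _) hC0
      _ ≤ Real.log κ / (C0 + 1) * (C0 + 1) := by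
          apply mul_le_mul_of_nonneg_left (by linarith)
          positivity
      _ = Real.log κ := div_mul_cancel₀ _ (by positivity)
  -- t
  obtain ⟨t, ht, htt, hδt⟩ : ∃ t : ℝ, 0 < t ∧ t ≤ t0 ∧ t / t0 * (2 * Real.exp (X0 * C0)) ≤ δ * (c / 2) := by
    have he : 0 < 2 * Real.exp (X0 * C0) := by positivity
    have hm : 0 < min 1 (δ * (c / 2) / (2 * Real.exp (X0 * C0))) := lt_min one_pos (by positivity)
    refine ⟨t0 * min 1 (δ * (c / 2) / (2 * Real.exp (X0 * C0))), by positivity, ?_, ?_⟩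
    · have := min_le_left 1 (δ * (c / 2) / (2 * Real.exp (X0 * C0)))
      nlinarith
    · rw [mul_div_cancel_left₀ _ ht0.ne']
      calc min 1 (δ * (c / 2) / (2 * Real.exp (X0 * C0))) * (2 * Real.exp (X0 * C0))
          ≤ δ * (c / 2) / (2 * Real.exp (X0 * C0)) * (2 * Real.exp (X0 * C0)) :=
            mul_le_mul_of_nonneg_right (min_le_right _ _) he.le
        _ = δ * (c / 2) := div_mul_cancel₀ _ he.ne'
  refine ⟨t, κ, ht, hκ, ?_⟩
  intro α _ D wt lo hi hS x z hx hxX hz k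
  have hcl := claim hS hρ0 hx (by linarith : x + t0 ≤ X0) hz htt ht0 hμ hμρ hc hμc hκ hκμ hκc hκt hδ hδκ hδt
  have hf := Z_pos (wx_nn hS hx) (Lw D hi k)
  have e := rr_mul hS (z := z) hx k
  have en : ‖Z (wz wt z) (Lw D hi k)‖ = Z (wx wt x) (Lw D hi k) * ‖rr D hi wt z x k‖ := by
    rw [e, norm_mul, Complex.norm_real, Real.norm_of_nonneg hf.le]
  constructor
  · have h1 := (hcl k).2 0 (Nat.zero_le k)
    rw [rr_zero, norm_one, Nat.sub_zero] at h1
    rw [en]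
    calc Z (wx wt x) (Lw D hi k) = Z (wx wt x) (Lw D hi k) * 1 := (mul_one _).symm
      _ ≤ Z (wx wt x) (Lw D hi k) * (κ ^ k * ‖rr D hi wt z x k‖) := mul_le_mul_of_nonneg_left h1 hf.le
      _ = _ := by ring
  · have h2 : ∀ k, ‖rr D hi wt z x k‖ ≤ κ ^ k := by
      intro k
      induction k with
      | zero => rw [rr_zero, norm_one, pow_zero]
      | succ k ih =>
        have h3 := (hcl (k + 1)).1 k (by omega)
        have e1 : k + 1 - k = 1 := by omega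
        rw [e1, pow_one] at h3
        have h4 : ‖rr D hi wt z x (k + 1)‖ ≤ ‖rr D hi wt z x k‖ + ‖rr D hi wt z x (k + 1) - rr D hi wt z x k‖ := by
          have h6 : rr D hi wt z x (k + 1) = rr D hi wt z x k + (rr D hi wt z x (k + 1) - rr D hi wt z x k) := by ring
          calc ‖rr D hi wt z x (k + 1)‖ = ‖rr D hi wt z x k + (rr D hi wt z x (k + 1) - rr D hi wt z x k)‖ := by rw [← h6]
            _ ≤ _ := norm_add_le _ _
        have h5 : 1 + δ * κ ≤ κ := by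
          have h6 : 1 - κ⁻¹ ≤ κ - 1 := by
            have h7 : 2 * κ ≤ κ * κ + 1 := by nlinarith [sq_nonneg (κ - 1)]
            have h8 : κ * κ⁻¹ = 1 := mul_inv_cancel₀ hκ0.ne'
            have h9 : κ * (1 - κ⁻¹) ≤ κ * (κ - 1) := by nlinarith
            exact le_of_mul_le_mul_left h9 hκ0
          linarith
        have h7 := norm_nonneg (rr D hi wt z x k)
        calc ‖rr D hi wt z x (k + 1)‖ ≤ (1 + δ * κ) * ‖rr D hi wt z x k‖ := by linarith
          _ ≤ κ * ‖rr D hi wt z x k‖ := mul_le_mul_of_nonneg_right h5 h7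
          _ ≤ κ * κ ^ k := mul_le_mul_of_nonneg_left ih hκ0.le
          _ = κ ^ (k + 1) := by ring
    rw [en, mul_comm]
    exact mul_le_mul_of_nonneg_right (h2 k) hf.le

end NUPZ
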