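import Pool.Agent.NUF.P1.Tail

/-!
P1, abstract part: the renewal identity at the clean levels.
-/

set_option autoImplicit false
set_option linter.unusedSectionVars false

namespace NUPZ

open Finset

open scoped Classical

variable {α : Type*} [PartialOrder α] {D : Finset α} {wt : α → ℝ} {lo hi : α → ℕ} {C0 ρ : ℝ}

/-- the loops below the level a. -/
noncomputable def Lw (D : Finset α) (hi : α → ℕ) (a : ℕ) : Finset α := D.filter (fun l => hi l < a)

/-- the loops between the levels b and a. -/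
noncomputable def Up (D : Finset α) (lo hi : α → ℕ) (b a : ℕ) : Finset α := D.filter (fun l => b < lo l ∧ hi l < a)

lemma mem_Lw {l : α} {a : ℕ} : l ∈ Lw D hi a ↔ l ∈ D ∧ hi l < a := by
  unfold Lw
  rw [Finset.mem_filter]

lemma mem_Up {l : α} {b a : ℕ} : l ∈ Up D lo hi b a ↔ l ∈ D ∧ b < lo l ∧ hi l < a := by
  unfold Up
  rw [Finset.mem_filter]

lemma Lw_sub (D : Finset α) (hi : α → ℕ) (a : ℕ) : Lw D hi a ⊆ D := Finset.filter_subset _ _

/-- C covers the levels b' + 1, ..., b. -/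
def cov (lo hi : α → ℕ) (C : Finset α) (b' b : ℕ) : Prop := ∀ c, b' < c → c ≤ b → ∃ l ∈ C, lo l ≤ c ∧ c ≤ hi l

/-- sum over the chains between b' and a that cover b' + 1, ..., b. -/
noncomputable def H {R : Type*} [CommSemiring R] (D : Finset α) (lo hi : α → ℕ) (w : α → R) (b' b a : ℕ) : R :=
  ∑ C ∈ (chs (Up D lo hi b' a)).filter (fun C => cov lo hi C b' b), ∏ l ∈ C, w l

lemma Lw_Up (hS : Sys D wt lo hi C0 ρ) (b a : ℕ) : ∀ l ∈ Lw D hi b, ∀ m ∈ Up D lo hi b a, l < m := by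
  intro l hl m hm
  rw [mem_Lw] at hl
  rw [mem_Up] at hm
  exact hS.sep l hl.1 m hm.1 b hl.2 hm.2.1

/-- the fibre over a clean level. -/
lemma fibre (hS : Sys D wt lo hi C0 ρ) {R : Type*} [CommSemiring R] (w : α → R) {b' b a : ℕ} (h1 : b' ≤ b) (h2 : b < a) :
    ∑ C ∈ (chs (Lw D hi a)).filter (fun C => cl lo hi C b = b'), ∏ l ∈ C, w l = Z w (Lw D hi b') * H D lo hi w b' b a := by
  have hLU := Lw_Up hS b' a
  have hset : (chs (Lw D hi a)).filter (fun C => cl lo hi C b = b') =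
      (chs (Lw D hi b' ∪ Up D lo hi b' a)).filter (fun C => cov lo hi (C ∩ Up D lo hi b' a) b' b) := by
    ext C
    rw [Finset.mem_filter, Finset.mem_filter, mem_chs, mem_chs]
    constructor
    · rintro ⟨⟨h3, h4⟩, h5⟩
      have h6 : ∀ l ∈ C, l ∈ D ∧ hi l < a := fun l hl => mem_Lw.1 (h3 hl)
      have h7 := cl_clean hS (C := C) (fun l hl => (h6 l hl).1) b
      rw [h5] at h7
      have h8 : C ⊆ Lw D hi b' ∪ Up D lo hi b' a := by
        intro l hl
        have h9 := h7 l hl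
        have h10 := hS.le l (h6 l hl).1
        rw [Finset.mem_union, mem_Lw, mem_Up]
        rcases Nat.lt_or_ge (hi l) b' with h11 | h11
        · exact Or.inl ⟨(h6 l hl).1, h11⟩
        · right
          refine ⟨(h6 l hl).1, ?_, (h6 l hl).2⟩
          by_contra h12
          exact h9 ⟨by omega, h11⟩
      refine ⟨⟨h8, h4⟩, ?_⟩
      intro c hc hcb
      have h9 := ((cl_eq_iff (lo := lo) (hi := hi) (C := C) (b := b)).1 h5).2.2 c hc hcb
      push Not at h9
      obtain ⟨l, hl, h10⟩ := h9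
      refine ⟨l, ?_, h10⟩
      rw [Finset.mem_inter]
      refine ⟨hl, ?_⟩
      have h11 := h8 hl
      rw [Finset.mem_union, mem_Lw] at h11
      rcases h11 with h11 | h11
      · omega
      · exact h11
    · rintro ⟨⟨h3, h4⟩, h5⟩
      refine ⟨⟨?_, h4⟩, ?_⟩
      · intro l hl
        have h6 := h3 hl
        rw [Finset.mem_union, mem_Lw, mem_Up] at h6
        rw [mem_Lw]
        rcases h6 with h6 | h6
        · exact ⟨h6.1, by omega⟩
        · exact ⟨h6.1, h6.2.2⟩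
      · rw [cl_eq_iff]
        refine ⟨h1, ?_, ?_⟩
        · intro _ l hl h7
          have h6 := h3 hl
          rw [Finset.mem_union, mem_Lw, mem_Up] at h6
          rcases h6 with h6 | h6 <;> omega
        · intro n hn hnb hcon
          obtain ⟨l, hl, h7⟩ := h5 n hn hnb
          exact hcon l (Finset.mem_inter.1 hl).1 h7
  rw [hset]
  unfold Z H
  rw [Finset.sum_filter, Finset.sum_filter,
    ← sum_union hLU (fun C => ∏ l ∈ C, w l) (fun C => if cov lo hi C b' b then ∏ l ∈ C, w l else 0)]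
  apply Finset.sum_congr rfl
  intro C hC
  rw [mem_chs] at hC
  split_ifs
  · exact prod_split (sep_disj hLU) hC.1 w
  · rw [mul_zero]

/-- the renewal identity. -/
lemma renewal (hS : Sys D wt lo hi C0 ρ) {R : Type*} [CommSemiring R] (w : α → R) {b a : ℕ} (h : b < a) :
    Z w (Lw D hi a) = ∑ b' ∈ range (b + 1), Z w (Lw D hi b') * H D lo hi w b' b a := by
  have h1 : Z w (Lw D hi a) = ∑ b' ∈ range (b + 1), ∑ C ∈ (chs (Lw D hi a)).filter (fun C => cl lo hi C b = b'),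
      ∏ l ∈ C, w l := by
    unfold Z
    rw [Finset.sum_fiberwise_of_maps_to]
    intro C _
    rw [Finset.mem_range]
    have := cl_le (lo := lo) (hi := hi) C b
    omega
  rw [h1]
  apply Finset.sum_congr rfl
  intro b' hb'
  rw [Finset.mem_range] at hb'
  exact fibre hS w (by omega) h

/-- the renewal identity with the distance. -/
lemma renewal_mu (hS : Sys D wt lo hi C0 ρ) (w : α → ℝ) (μ : ℝ) {b a : ℕ} (h : b < a) :
    ∑ C ∈ chs (Lw D hi a), (∏ l ∈ C, w l) * μ ^ (b - cl lo hi C b) =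
      ∑ b' ∈ range (b + 1), Z w (Lw D hi b') * H D lo hi w b' b a * μ ^ (b - b') := by
  have h1 : ∑ C ∈ chs (Lw D hi a), (∏ l ∈ C, w l) * μ ^ (b - cl lo hi C b) =
      ∑ b' ∈ range (b + 1), ∑ C ∈ (chs (Lw D hi a)).filter (fun C => cl lo hi C b = b'),
      (∏ l ∈ C, w l) * μ ^ (b - cl lo hi C b) := by
    rw [Finset.sum_fiberwise_of_maps_to]
    intro C _
    rw [Finset.mem_range]
    have := cl_le (lo := lo) (hi := hi) C b
    omega
  rw [h1]
  apply Finset.sum_congr rfl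
  intro b' hb'
  rw [Finset.mem_range] at hb'
  rw [← fibre hS w (by omega) h, Finset.sum_mul]
  apply Finset.sum_congr rfl
  intro C hC
  rw [Finset.mem_filter] at hC
  rw [hC.2]

lemma H_nn {w : α → ℝ} (hw : ∀ l, 0 ≤ w l) (b' b a : ℕ) : 0 ≤ H D lo hi w b' b a :=
  Finset.sum_nonneg (fun C _ => prod_nn hw C)

lemma H_self {R : Type*} [CommSemiring R] (w : α → R) (b a : ℕ) : H D lo hi w b b a = Z w (Up D lo hi b a) := by
  unfold H Z
  rw [Finset.filter_true_of_mem]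
  intro C _ c hc hcb
  omega

/-- without the loops that cross b. -/
lemma clean_fac (hS : Sys D wt lo hi C0 ρ) {R : Type*} [CommSemiring R] (w : α → R) {b a : ℕ} (h : b ≤ a) :
    Z w (Lw D hi a \ Cr D lo hi b) = Z w (Lw D hi b) * Z w (Up D lo hi b a) := by
  rw [← Z_union (Lw_Up hS b a)]
  congr 1
  ext l
  rw [Finset.mem_sdiff, mem_Lw, mem_Cr, Finset.mem_union, mem_Lw, mem_Up]
  constructor
  · rintro ⟨⟨h1, h2⟩, h3⟩
    rcases Nat.lt_or_ge (hi l) b with h4 | h4
    · exact Or.inl ⟨h1, h4⟩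
    · refine Or.inr ⟨h1, ?_, h2⟩
      by_contra h5
      exact h3 ⟨h1, by omega, h4⟩
  · rintro (⟨h1, h2⟩ | ⟨h1, h2, h3⟩)
    · exact ⟨⟨h1, by omega⟩, fun h3 => by omega⟩
    · exact ⟨⟨h1, h3⟩, fun h4 => by omega⟩

/-- supermultiplicativity. -/
lemma super (hS : Sys D wt lo hi C0 ρ) {w : α → ℝ} (hw : ∀ l, 0 ≤ w l) {b a : ℕ} (h : b ≤ a) :
    Z w (Lw D hi b) * Z w (Up D lo hi b a) ≤ Z w (Lw D hi a) := by
  rw [← clean_fac hS w h]
  exact Z_mono hw Finset.sdiff_subset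

/-- submultiplicativity up to a constant. -/
lemma sub (hS : Sys D wt lo hi C0 ρ) {x : ℝ} (hx : 0 ≤ x) {b a : ℕ} (h : b ≤ a) :
    Z (wx wt x) (Lw D hi a) ≤ Z (wx wt x) (Lw D hi b) * Z (wx wt x) (Up D lo hi b a) * Real.exp (x * C0) := by
  rw [← clean_fac hS _ h]
  exact Z_clean hS hx _ b

/-- total weight between two levels. -/
lemma sum_Up (hS : Sys D wt lo hi C0 ρ) (b a : ℕ) : ∑ l ∈ Up D lo hi b a, wt l ≤ C0 * ((a - b : ℕ) : ℝ) := by
  rw [← Finset.sum_fiberwise_of_maps_to (s := Up D lo hi b a) (t := Ioo b a) (g := lo)]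
  · calc ∑ c ∈ Ioo b a, ∑ l ∈ (Up D lo hi b a).filter (fun l => lo l = c), wt l
        ≤ ∑ c ∈ Ioo b a, C0 := by
          apply Finset.sum_le_sum
          intro c _
          refine le_trans ?_ (sum_Cr hS c)
          apply Finset.sum_le_sum_of_subset_of_nonneg
          · intro l hl
            rw [Finset.mem_filter, mem_Up] at hl
            rw [mem_Cr]
            have := hS.le l hl.1.1
            exact ⟨hl.1.1, by omega, by omega⟩
          · exact fun l _ _ => hS.nn l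
      _ = ((a - b - 1 : ℕ) : ℝ) * C0 := by
          rw [Finset.sum_const, Nat.card_Ioo, nsmul_eq_mul]
      _ ≤ C0 * ((a - b : ℕ) : ℝ) := by
          rw [mul_comm]
          apply mul_le_mul_of_nonneg_left _ (C0_nn hS)
          exact_mod_cast Nat.sub_le _ _
  · intro l hl
    rw [mem_Up] at hl
    rw [Finset.mem_Ioo]
    have := hS.le l hl.1
    exact ⟨hl.2.1, by omega⟩

lemma wx_add (wt : α → ℝ) (x y : ℝ) : wx wt (x + y) = fun l => wx wt x l + wx wt y l := by
  funext l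
  unfold wx
  ring

/-- comparison of two real activities. -/
lemma ratio (hS : Sys D wt lo hi C0 ρ) {x t κ : ℝ} (hx : 0 ≤ x) (ht : 0 ≤ t) (hκ : Real.exp (t * C0) ≤ κ)
    {b a : ℕ} (h : b ≤ a) :
    Z (wx wt (x + t)) (Lw D hi a) * Z (wx wt x) (Lw D hi b) ≤
      Real.exp ((x + t) * C0) * κ ^ (a - b) * (Z (wx wt (x + t)) (Lw D hi b) * Z (wx wt x) (Lw D hi a)) := by
  have h1 := sub hS (x := x + t) (by linarith) h
  have h2 : Z (wx wt (x + t)) (Up D lo hi b a) ≤ Z (wx wt x) (Up D lo hi b a) * κ ^ (a - b) := by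
    rw [wx_add]
    refine (Z_add (wx_nn hS hx) (wx_nn hS ht) _).trans ?_
    apply mul_le_mul_of_nonneg_left _ (Z_pos (wx_nn hS hx) _).le
    refine (prod_exp hS ht _).trans ?_
    have h3 : t * ∑ l ∈ Up D lo hi b a, wt l ≤ ((a - b : ℕ) : ℝ) * (t * C0) := by
      have := mul_le_mul_of_nonneg_left (sum_Up hS b a) ht
      linarith
    calc Real.exp (t * ∑ l ∈ Up D lo hi b a, wt l) ≤ Real.exp (((a - b : ℕ) : ℝ) * (t * C0)) := Real.exp_le_exp.2 h3
      _ = Real.exp (t * C0) ^ (a - b) := Real.exp_nat_mul _ _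
      _ ≤ κ ^ (a - b) := pow_le_pow_left₀ (Real.exp_pos _).le hκ _
  have h3 := super hS (wx_nn hS hx) h
  have p0 := (Z_pos (wx_nn hS (x := x + t) (by linarith)) (Lw D hi b)).le
  have p1 := (Z_pos (wx_nn hS hx) (Lw D hi b)).le
  have p2 : 0 ≤ κ ^ (a - b) := pow_nonneg ((Real.exp_pos _).le.trans hκ) _
  have p3 := (Real.exp_pos ((x + t) * C0)).le
  calc Z (wx wt (x + t)) (Lw D hi a) * Z (wx wt x) (Lw D hi b)
      ≤ (Z (wx wt (x + t)) (Lw D hi b) * Z (wx wt (x + t)) (Up D lo hi b a) * Real.exp ((x + t) * C0)) *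
        Z (wx wt x) (Lw D hi b) := mul_le_mul_of_nonneg_right h1 p1
    _ ≤ (Z (wx wt (x + t)) (Lw D hi b) * (Z (wx wt x) (Up D lo hi b a) * κ ^ (a - b)) * Real.exp ((x + t) * C0)) *
        Z (wx wt x) (Lw D hi b) := by
        apply mul_le_mul_of_nonneg_right _ p1
        apply mul_le_mul_of_nonneg_right _ p3
        exact mul_le_mul_of_nonneg_left h2 p0
    _ = Real.exp ((x + t) * C0) * κ ^ (a - b) * (Z (wx wt (x + t)) (Lw D hi b) *
        (Z (wx wt x) (Lw D hi b) * Z (wx wt x) (Up D lo hi b a))) := by ring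
    _ ≤ _ := by
        apply mul_le_mul_of_nonneg_left _ (mul_nonneg p3 p2)
        exact mul_le_mul_of_nonneg_left h3 p0

/-- the complex weights. -/
def wz (wt : α → ℝ) (z : ℂ) : α → ℂ := fun l => z * (wt l : ℂ)

/-- powers. -/
lemma pow_close {z : ℂ} {x t t0 : ℝ} (hx : 0 ≤ x) (hz : ‖z - x‖ ≤ t) (ht : t ≤ t0) (ht0 : 0 < t0) (n : ℕ) :
    ‖z ^ n - (x : ℂ) ^ n‖ ≤ t / t0 * ((x + t0) ^ n - x ^ n) := by
  have ht' : 0 ≤ t := (norm_nonneg _).trans hz
  have hq : 0 ≤ t / t0 := div_nonneg ht' ht0.le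
  have hzn : ‖z‖ ≤ x + t0 := by
    calc ‖z‖ = ‖(z - x) + x‖ := by rw [sub_add_cancel]
      _ ≤ ‖z - x‖ + ‖(x : ℂ)‖ := norm_add_le _ _
      _ ≤ t0 + x := by
          rw [Complex.norm_real, Real.norm_of_nonneg hx]
          linarith
      _ = x + t0 := add_comm _ _
  induction n with
  | zero => simp
  | succ n ih =>
    have e : z ^ (n + 1) - (x : ℂ) ^ (n + 1) = z * (z ^ n - (x : ℂ) ^ n) + (z - x) * (x : ℂ) ^ n := by ring
    rw [e]
    have h1 : ‖(x : ℂ) ^ n‖ = x ^ n := by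
      rw [norm_pow, Complex.norm_real, Real.norm_of_nonneg hx]
    have hxn : 0 ≤ x ^ n := pow_nonneg hx n
    calc ‖z * (z ^ n - (x : ℂ) ^ n) + (z - x) * (x : ℂ) ^ n‖
        ≤ ‖z‖ * ‖z ^ n - (x : ℂ) ^ n‖ + ‖z - x‖ * x ^ n := by
          refine (norm_add_le _ _).trans ?_
          rw [norm_mul, norm_mul, h1]
      _ ≤ (x + t0) * (t / t0 * ((x + t0) ^ n - x ^ n)) + t * x ^ n := by
          apply add_le_add
          · exact mul_le_mul hzn ih (norm_nonneg _) (by linarith)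
          · exact mul_le_mul_of_nonneg_right hz hxn
      _ = t / t0 * ((x + t0) ^ (n + 1) - x ^ (n + 1)) := by
          have : t = t / t0 * t0 := (div_mul_cancel₀ t ht0.ne').symm
          nth_rewrite 2 [this]
          ring

lemma prod_wz (wt : α → ℝ) (z : ℂ) (C : Finset α) : ∏ l ∈ C, wz wt z l = z ^ C.card * ((∏ l ∈ C, wt l : ℝ) : ℂ) := by
  unfold wz
  rw [Finset.prod_mul_distrib, Finset.prod_const]
  push_cast
  rfl

lemma prod_wx (wt : α → ℝ) (x : ℝ) (C : Finset α) : ∏ l ∈ C, wx wt x l = x ^ C.card * ∏ l ∈ C, wt l := by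
  unfold wx
  rw [Finset.prod_mul_distrib, Finset.prod_const]

/-- error of the blocks. -/
lemma H_close (hS : Sys D wt lo hi C0 ρ) {z : ℂ} {x t t0 : ℝ} (hx : 0 ≤ x) (hz : ‖z - x‖ ≤ t) (ht : t ≤ t0) (ht0 : 0 < t0)
    (b' b a : ℕ) : ‖H D lo hi (wz wt z) b' b a - ((H D lo hi (wx wt x) b' b a : ℝ) : ℂ)‖ ≤
      t / t0 * H D lo hi (wx wt (x + t0)) b' b a := by
  have ht' : 0 ≤ t := (norm_nonneg _).trans hz
  have hq : 0 ≤ t / t0 := div_nonneg ht' ht0.le
  unfold H
  push_cast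
  rw [← Finset.sum_sub_distrib, Finset.mul_sum]
  refine (norm_sum_le _ _).trans ?_
  apply Finset.sum_le_sum
  intro C _
  have e1 : (∏ l ∈ C, ((wx wt x l : ℝ) : ℂ)) = (x : ℂ) ^ C.card * ((∏ l ∈ C, wt l : ℝ) : ℂ) := by
    rw [← Complex.ofReal_prod, prod_wx]
    push_cast
    rfl
  rw [prod_wz, e1, ← sub_mul, norm_mul, prod_wx, Complex.norm_real,
    Real.norm_of_nonneg (Finset.prod_nonneg (fun l _ => hS.nn l)), ← mul_assoc]
  apply mul_le_mul_of_nonneg_right _ (Finset.prod_nonneg (fun l _ => hS.nn l))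
  refine (pow_close hx hz ht ht0 C.card).trans ?_
  apply mul_le_mul_of_nonneg_left _ hq
  have := pow_nonneg hx C.card
  linarith

end NUPZ
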