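import Pool.Agent.NUF.P1.Chain

/-!
P1, abstract part: levels, clean levels, exponential moment of the distance to the next clean level.
-/

set_option autoImplicit false
set_option linter.unusedSectionVars false

namespace NUPZ

open Finset

open scoped Classical

/-- a finite set of loops with levels: the loop l crosses the levels lo l, ..., hi l. -/
structure Sys {α : Type*} [PartialOrder α] (D : Finset α) (wt : α → ℝ) (lo hi : α → ℕ) (C0 ρ : ℝ) : Prop where
  nn : ∀ l, 0 ≤ wt l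
  one : ∀ l ∈ D, 1 ≤ lo l
  le : ∀ l ∈ D, lo l ≤ hi l
  mlo : ∀ a ∈ D, ∀ b ∈ D, a < b → lo a ≤ lo b
  mhi : ∀ a ∈ D, ∀ b ∈ D, a < b → hi a ≤ hi b
  sep : ∀ a ∈ D, ∀ b ∈ D, ∀ c, hi a < c → c < lo b → a < b
  E1 : ∀ i j, i ≤ j → ∑ l ∈ D.filter (fun l => lo l ≤ i ∧ j ≤ hi l), wt l ≤ C0 * ρ ^ (j - i)

variable {α : Type*} [PartialOrder α] {D : Finset α} {wt : α → ℝ} {lo hi : α → ℕ} {C0 ρ : ℝ}

/-- the loops that cross the level b. -/
noncomputable def Cr (D : Finset α) (lo hi : α → ℕ) (b : ℕ) : Finset α := D.filter (fun l => lo l ≤ b ∧ b ≤ hi l)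

lemma mem_Cr {l : α} {b : ℕ} : l ∈ Cr D lo hi b ↔ l ∈ D ∧ lo l ≤ b ∧ b ≤ hi l := by
  unfold Cr
  rw [Finset.mem_filter]

/-- the largest clean level up to b (0 if there is none). -/
noncomputable def cl (lo hi : α → ℕ) (C : Finset α) (b : ℕ) : ℕ :=
  Nat.findGreatest (fun c => ∀ l ∈ C, ¬ (lo l ≤ c ∧ c ≤ hi l)) b

lemma cl_le (C : Finset α) (b : ℕ) : cl lo hi C b ≤ b := Nat.findGreatest_le b

lemma cl_eq_iff {C : Finset α} {b m : ℕ} : cl lo hi C b = m ↔ m ≤ b ∧ (m ≠ 0 → ∀ l ∈ C, ¬ (lo l ≤ m ∧ m ≤ hi l)) ∧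
    ∀ n, m < n → n ≤ b → ¬ ∀ l ∈ C, ¬ (lo l ≤ n ∧ n ≤ hi l) := by
  unfold cl
  rw [Nat.findGreatest_eq_iff]

lemma cl_clean (hS : Sys D wt lo hi C0 ρ) {C : Finset α} (hC : C ⊆ D) (b : ℕ) :
    ∀ l ∈ C, ¬ (lo l ≤ cl lo hi C b ∧ cl lo hi C b ≤ hi l) := by
  obtain ⟨h1, h2, h3⟩ := (cl_eq_iff (lo := lo) (hi := hi) (C := C) (b := b)).1 rfl
  by_cases h0 : cl lo hi C b = 0
  · intro l hl h
    have := hS.one l (hC hl)
    omega
  · exact h2 h0

/-- the weights. -/
def wx (wt : α → ℝ) (x : ℝ) : α → ℝ := fun l => x * wt l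

lemma wx_nn (hS : Sys D wt lo hi C0 ρ) {x : ℝ} (hx : 0 ≤ x) (l : α) : 0 ≤ wx wt x l := mul_nonneg hx (hS.nn l)

lemma prod_exp (hS : Sys D wt lo hi C0 ρ) {x : ℝ} (hx : 0 ≤ x) (S : Finset α) :
    ∏ l ∈ S, (1 + wx wt x l) ≤ Real.exp (x * ∑ l ∈ S, wt l) := by
  rw [Finset.mul_sum, Real.exp_sum]
  apply Finset.prod_le_prod
  · intro l _
    have := wx_nn hS hx l
    linarith
  · intro l _
    have := Real.add_one_le_exp (x * wt l)
    unfold wx
    linarith

lemma sum_Cr (hS : Sys D wt lo hi C0 ρ) (b : ℕ) : ∑ l ∈ Cr D lo hi b, wt l ≤ C0 := by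
  have := hS.E1 b b le_rfl
  rwa [Nat.sub_self, pow_zero, mul_one] at this

lemma C0_nn (hS : Sys D wt lo hi C0 ρ) : 0 ≤ C0 :=
  le_trans (Finset.sum_nonneg (fun l _ => hS.nn l)) (sum_Cr hS 0)

/-- the probability that a level is clean. -/
lemma Z_clean (hS : Sys D wt lo hi C0 ρ) {x : ℝ} (hx : 0 ≤ x) (A : Finset α) (b : ℕ) :
    Z (wx wt x) A ≤ Z (wx wt x) (A \ Cr D lo hi b) * Real.exp (x * C0) := by
  refine (Z_remove (wx_nn hS hx) A (Cr D lo hi b)).trans ?_
  apply mul_le_mul_of_nonneg_left _ (Z_pos (wx_nn hS hx) _).le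
  refine (prod_exp hS hx _).trans ?_
  apply Real.exp_le_exp.2
  exact mul_le_mul_of_nonneg_left (sum_Cr hS b) hx

/-- geometric sums. -/
lemma geo_le {q : ℝ} (h0 : 0 ≤ q) (h1 : q < 1) (N : ℕ) : (∑ n ∈ range N, q ^ n) * (1 - q) ≤ 1 := by
  rw [geom_sum_mul_neg]
  have := pow_nonneg h0 N
  linarith

/-- summation by parts. -/
lemma abel (hS : Sys D wt lo hi C0 ρ) (hρ : 0 ≤ ρ) {μ : ℝ} (hμ : 1 ≤ μ) (hμρ : μ * ρ < 1) (b : ℕ) :
    (∑ l ∈ Cr D lo hi b, wt l * (μ ^ (b + 1 - lo l) - 1)) * (1 - μ * ρ) ≤ C0 * (μ - 1) := by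
  have h1 : ∀ l ∈ Cr D lo hi b, wt l * (μ ^ (b + 1 - lo l) - 1) =
      ∑ n ∈ range (b + 1), (if lo l ≤ b - n then wt l * (μ ^ n * (μ - 1)) else 0) := by
    intro l hl
    rw [mem_Cr] at hl
    have h2 : μ ^ (b + 1 - lo l) - 1 = (∑ n ∈ range (b + 1 - lo l), μ ^ n) * (μ - 1) := (geom_sum_mul μ _).symm
    have h3 : range (b + 1 - lo l) = (range (b + 1)).filter (fun n => lo l ≤ b - n) := by
      have := hS.one l hl.1
      ext n
      rw [Finset.mem_filter, Finset.mem_range, Finset.mem_range]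
      omega
    rw [h2, h3, Finset.sum_filter, Finset.sum_mul, Finset.mul_sum]
    apply Finset.sum_congr rfl
    intro n _
    split_ifs
    · rfl
    · ring
  rw [Finset.sum_congr rfl h1, Finset.sum_comm]
  have h4 : ∀ n ∈ range (b + 1), ∑ l ∈ Cr D lo hi b, (if lo l ≤ b - n then wt l * (μ ^ n * (μ - 1)) else 0) ≤
      C0 * (μ - 1) * (μ * ρ) ^ n := by
    intro n hn
    rw [Finset.mem_range] at hn
    rw [← Finset.sum_filter, ← Finset.sum_mul]
    have h5 : (Cr D lo hi b).filter (fun l => lo l ≤ b - n) = D.filter (fun l => lo l ≤ b - n ∧ b ≤ hi l) := by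
      ext l
      rw [Finset.mem_filter, mem_Cr, Finset.mem_filter]
      constructor
      · rintro ⟨⟨a1, a2, a3⟩, a4⟩
        exact ⟨a1, a4, a3⟩
      · rintro ⟨a1, a2, a3⟩
        exact ⟨⟨a1, by omega, a3⟩, a2⟩
    rw [h5]
    have h6 := hS.E1 (b - n) b (by omega)
    have h7 : b - (b - n) = n := by omega
    rw [h7] at h6
    have h8 : 0 ≤ μ ^ n * (μ - 1) := mul_nonneg (pow_nonneg (by linarith) n) (by linarith)
    calc (∑ l ∈ D.filter (fun l => lo l ≤ b - n ∧ b ≤ hi l), wt l) * (μ ^ n * (μ - 1))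
        ≤ C0 * ρ ^ n * (μ ^ n * (μ - 1)) := mul_le_mul_of_nonneg_right h6 h8
      _ = C0 * (μ - 1) * (μ * ρ) ^ n := by rw [mul_pow]; ring
  have h9 : 0 ≤ μ * ρ := mul_nonneg (by linarith) hρ
  have h10 : 0 ≤ C0 * (μ - 1) := mul_nonneg (C0_nn hS) (by linarith)
  calc (∑ n ∈ range (b + 1), ∑ l ∈ Cr D lo hi b, (if lo l ≤ b - n then wt l * (μ ^ n * (μ - 1)) else 0)) *
        (1 - μ * ρ) ≤ (∑ n ∈ range (b + 1), C0 * (μ - 1) * (μ * ρ) ^ n) * (1 - μ * ρ) :=
        mul_le_mul_of_nonneg_right (Finset.sum_le_sum h4) (by linarith)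
    _ = C0 * (μ - 1) * ((∑ n ∈ range (b + 1), (μ * ρ) ^ n) * (1 - μ * ρ)) := by
        rw [← Finset.mul_sum]
        ring
    _ ≤ C0 * (μ - 1) * 1 := mul_le_mul_of_nonneg_left (geo_le h9 hμρ _) h10
    _ = C0 * (μ - 1) := mul_one _

/-- the next clean level after a crossing loop. -/
lemma cl_insert (hS : Sys D wt lo hi C0 ρ) {b : ℕ} {l : α} (hl : l ∈ Cr D lo hi b) {C1 C2 : Finset α}
    (h1 : ∀ a ∈ C1, a ∈ D ∧ l < a) : cl lo hi (insert l (C1 ∪ C2)) b = cl lo hi C2 (lo l - 1) := by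
  rw [mem_Cr] at hl
  have h0 := hS.one l hl.1
  obtain ⟨h2, h3, h4⟩ := (cl_eq_iff (lo := lo) (hi := hi) (C := C2) (b := lo l - 1)).1 rfl
  rw [cl_eq_iff]
  refine ⟨by omega, ?_, ?_⟩
  · intro hm a ha
    rw [Finset.mem_insert, Finset.mem_union] at ha
    rcases ha with rfl | ha | ha
    · rintro ⟨h5, _⟩
      omega
    · have := hS.mlo l hl.1 a (h1 a ha).1 (h1 a ha).2
      rintro ⟨h5, _⟩
      omega
    · exact h3 hm a ha
  · intro n hn hnb hcon
    rcases Nat.lt_or_ge n (lo l) with h5 | h5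
    · apply h4 n hn (by omega)
      intro a ha
      exact hcon a (by rw [Finset.mem_insert, Finset.mem_union]; exact Or.inr (Or.inr ha))
    · exact hcon l (Finset.mem_insert_self _ _) ⟨h5, by omega⟩

lemma prod_ins {R : Type*} [CommSemiring R] (w : α → R) {l : α} {C1 C2 : Finset α} (h1 : ∀ a ∈ C1, l < a)
    (h2 : ∀ a ∈ C2, a < l) : ∏ a ∈ insert l (C1 ∪ C2), w a = w l * ((∏ a ∈ C1, w a) * ∏ a ∈ C2, w a) := by
  rw [Finset.prod_insert, Finset.prod_union]
  · rw [Finset.disjoint_left]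
    intro a ha hb
    exact lt_irrefl _ ((h1 a ha).trans (h2 a hb))
  · rw [Finset.mem_union]
    rintro (h | h)
    · exact lt_irrefl _ (h1 l h)
    · exact lt_irrefl _ (h2 l h)

/-- THE TAIL LEMMA: exponential moment of the distance to the next clean level. -/
theorem tail (hS : Sys D wt lo hi C0 ρ) (hρ : 0 ≤ ρ) {x X0 μ : ℝ} (hx0 : 0 ≤ x) (hx : x ≤ X0) (hμ : 1 ≤ μ)
    (hμρ : μ * ρ < 1) (hc : 2 * X0 * (C0 * (μ - 1)) ≤ (1 - μ * ρ) * Real.exp (-(X0 * C0))) (b : ℕ) :
    ∀ A ⊆ D, ∑ C ∈ chs A, (∏ l ∈ C, wx wt x l) * μ ^ (b - cl lo hi C b) ≤ 2 * Z (wx wt x) A := by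
  induction b using Nat.strong_induction_on with
  | _ b ih =>
    intro A hA
    have hw := wx_nn hS hx0
    have hZ := Z_pos hw A
    set S := Cr D lo hi b with hSd
    rw [← Finset.sum_filter_add_sum_filter_not (chs A) (fun C => (C ∩ S).Nonempty)]
    -- the clean part
    have hcl : ∑ C ∈ (chs A).filter (fun C => ¬ (C ∩ S).Nonempty), (∏ l ∈ C, wx wt x l) * μ ^ (b - cl lo hi C b) =
        Z (wx wt x) (A \ S) := by
      have h1 : (chs A).filter (fun C => ¬ (C ∩ S).Nonempty) = chs (A \ S) := by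
        ext C
        rw [Finset.mem_filter, mem_chs, mem_chs, Finset.not_nonempty_iff_eq_empty, ← Finset.disjoint_iff_inter_eq_empty,
          Finset.subset_sdiff]
        tauto
      unfold Z
      rw [h1]
      apply Finset.sum_congr rfl
      intro C hC
      rw [mem_chs, Finset.subset_sdiff] at hC
      have h2 : cl lo hi C b = b := by
        rw [cl_eq_iff]
        refine ⟨le_rfl, fun _ a ha h3 => ?_, fun n h3 h4 => by omega⟩
        exact (Finset.disjoint_left.1 hC.1.2 ha) (mem_Cr.2 ⟨hA (hC.1.1 ha), h3⟩)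
      rw [h2, Nat.sub_self, pow_zero, mul_one]
    -- the covered part
    have hcov : ∑ C ∈ (chs A).filter (fun C => (C ∩ S).Nonempty), ∏ l ∈ C, wx wt x l =
        Z (wx wt x) A - Z (wx wt x) (A \ S) := by
      have h1 : (chs A).filter (fun C => ¬ (C ∩ S).Nonempty) = chs (A \ S) := by
        ext C
        rw [Finset.mem_filter, mem_chs, mem_chs, Finset.not_nonempty_iff_eq_empty, ← Finset.disjoint_iff_inter_eq_empty,
          Finset.subset_sdiff]
        tauto
      have h2 := Finset.sum_filter_add_sum_filter_not (chs A) (fun C => (C ∩ S).Nonempty) (fun C => ∏ l ∈ C, wx wt x l)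
      rw [h1] at h2
      unfold Z
      linarith
    have hgt : ∀ l, ∀ C1 ∈ chs (A.filter (fun a => l < a)), ∀ a ∈ C1, a ∈ A ∧ l < a := by
      intro l C1 h1 a ha
      have := (mem_chs.1 h1).1 ha
      rwa [Finset.mem_filter] at this
    have hlt : ∀ l, ∀ C2 ∈ chs ((A.filter (fun a => a < l)) \ S), ∀ a ∈ C2, a < l := by
      intro l C2 h2 a ha
      have := (mem_chs.1 h2).1 ha
      rw [Finset.mem_sdiff, Finset.mem_filter] at this
      exact this.1.2
    rw [sum_min] at hcov ⊢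
    have hcov' : ∑ l ∈ A ∩ S, wx wt x l * (Z (wx wt x) (A.filter (fun a => l < a)) *
        Z (wx wt x) ((A.filter (fun a => a < l)) \ S)) = Z (wx wt x) A - Z (wx wt x) (A \ S) := by
      rw [← hcov]
      apply Finset.sum_congr rfl
      intro l _
      unfold Z
      rw [Finset.sum_mul_sum, Finset.mul_sum]
      apply Finset.sum_congr rfl
      intro C1 h1
      rw [Finset.mul_sum]
      apply Finset.sum_congr rfl
      intro C2 h2
      rw [prod_ins (wx wt x) (fun a ha => (hgt l C1 h1 a ha).2) (hlt l C2 h2)]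
    -- bound of each term
    have hterm : ∀ l ∈ A ∩ S, ∑ C1 ∈ chs (A.filter (fun a => l < a)), ∑ C2 ∈ chs ((A.filter (fun a => a < l)) \ S),
        (∏ a ∈ insert l (C1 ∪ C2), wx wt x a) * μ ^ (b - cl lo hi (insert l (C1 ∪ C2)) b) ≤
        2 * (wx wt x l * (Z (wx wt x) (A.filter (fun a => l < a)) *
        Z (wx wt x) ((A.filter (fun a => a < l)) \ S))) +
        2 * Z (wx wt x) A * (x * (wt l * (μ ^ (b + 1 - lo l) - 1))) := by
      intro l hl
      rw [Finset.mem_inter] at hl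
      have hlS := mem_Cr.1 hl.2
      have hl1 := hS.one l hlS.1
      have e1 : ∑ C1 ∈ chs (A.filter (fun a => l < a)), ∑ C2 ∈ chs ((A.filter (fun a => a < l)) \ S),
          (∏ a ∈ insert l (C1 ∪ C2), wx wt x a) * μ ^ (b - cl lo hi (insert l (C1 ∪ C2)) b) =
          wx wt x l * (Z (wx wt x) (A.filter (fun a => l < a)) * (μ ^ (b + 1 - lo l) *
            ∑ C2 ∈ chs ((A.filter (fun a => a < l)) \ S), (∏ a ∈ C2, wx wt x a) *
              μ ^ (lo l - 1 - cl lo hi C2 (lo l - 1)))) := by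
        unfold Z
        rw [Finset.mul_sum (s := chs ((A.filter (fun a => a < l)) \ S)), Finset.sum_mul_sum, Finset.mul_sum]
        apply Finset.sum_congr rfl
        intro C1 h1
        rw [Finset.mul_sum]
        apply Finset.sum_congr rfl
        intro C2 h2
        rw [prod_ins (wx wt x) (fun a ha => (hgt l C1 h1 a ha).2) (hlt l C2 h2),
          cl_insert hS hl.2 (fun a ha => ⟨hA (hgt l C1 h1 a ha).1, (hgt l C1 h1 a ha).2⟩)]
        have e2 := cl_le (lo := lo) (hi := hi) C2 (lo l - 1)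
        have e3 : b - cl lo hi C2 (lo l - 1) = (b + 1 - lo l) + (lo l - 1 - cl lo hi C2 (lo l - 1)) := by omega
        rw [e3, pow_add]
        ring
      rw [e1]
      have e2 := ih (lo l - 1) (by omega) ((A.filter (fun a => a < l)) \ S)
        (Finset.sdiff_subset.trans ((Finset.filter_subset _ _).trans hA))
      have e3 : Z (wx wt x) (A.filter (fun a => l < a)) * Z (wx wt x) ((A.filter (fun a => a < l)) \ S) ≤
          Z (wx wt x) A := by
        rw [mul_comm, ← Z_union]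
        · apply Z_mono hw
          intro a ha
          rw [Finset.mem_union, Finset.mem_sdiff, Finset.mem_filter, Finset.mem_filter] at ha
          rcases ha with ha | ha
          · exact ha.1.1
          · exact ha.1
        · intro a ha c hc
          rw [Finset.mem_sdiff, Finset.mem_filter] at ha
          rw [Finset.mem_filter] at hc
          exact ha.1.2.trans hc.2
      have e4 : 1 ≤ μ ^ (b + 1 - lo l) := one_le_pow₀ hμ
      have p1 := hw l
      have p2 := (Z_pos hw (A.filter (fun a => l < a))).le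
      have p3 := (Z_pos hw ((A.filter (fun a => a < l)) \ S)).le
      calc wx wt x l * (Z (wx wt x) (A.filter (fun a => l < a)) * (μ ^ (b + 1 - lo l) *
            ∑ C2 ∈ chs ((A.filter (fun a => a < l)) \ S), (∏ a ∈ C2, wx wt x a) *
              μ ^ (lo l - 1 - cl lo hi C2 (lo l - 1))))
          ≤ wx wt x l * (Z (wx wt x) (A.filter (fun a => l < a)) * (μ ^ (b + 1 - lo l) *
            (2 * Z (wx wt x) ((A.filter (fun a => a < l)) \ S)))) := by
            apply mul_le_mul_of_nonneg_left _ p1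
            apply mul_le_mul_of_nonneg_left _ p2
            exact mul_le_mul_of_nonneg_left e2 (by linarith)
        _ = 2 * (wx wt x l * (Z (wx wt x) (A.filter (fun a => l < a)) *
              Z (wx wt x) ((A.filter (fun a => a < l)) \ S))) +
            2 * (Z (wx wt x) (A.filter (fun a => l < a)) * Z (wx wt x) ((A.filter (fun a => a < l)) \ S)) *
              (wx wt x l * (μ ^ (b + 1 - lo l) - 1)) := by ring
        _ ≤ 2 * (wx wt x l * (Z (wx wt x) (A.filter (fun a => l < a)) *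
              Z (wx wt x) ((A.filter (fun a => a < l)) \ S))) +
            2 * Z (wx wt x) A * (wx wt x l * (μ ^ (b + 1 - lo l) - 1)) := by
            have p4 : 0 ≤ wx wt x l * (μ ^ (b + 1 - lo l) - 1) := mul_nonneg p1 (by linarith)
            have := mul_le_mul_of_nonneg_right e3 p4
            linarith
        _ = _ := by
            unfold wx
            ring
    have hsum := Finset.sum_le_sum hterm
    rw [Finset.sum_add_distrib, ← Finset.mul_sum, hcov', ← Finset.mul_sum, ← Finset.mul_sum] at hsum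
    rw [hcl]
    have hab : ∑ l ∈ A ∩ S, wt l * (μ ^ (b + 1 - lo l) - 1) ≤ ∑ l ∈ S, wt l * (μ ^ (b + 1 - lo l) - 1) := by
      apply Finset.sum_le_sum_of_subset_of_nonneg Finset.inter_subset_right
      intro l _ _
      exact mul_nonneg (hS.nn l) (by have := one_le_pow₀ hμ (n := b + 1 - lo l); linarith)
    have hab2 := abel hS hρ hμ hμρ b
    have hZc := Z_clean hS hx0 A b
    have hZcp := Z_pos hw (A \ S)
    -- numbers
    have hC := C0_nn hS
    have hX0 : 0 ≤ X0 := hx0.trans hx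
    set E := ∑ l ∈ S, wt l * (μ ^ (b + 1 - lo l) - 1) with hE
    have hE0 : 0 ≤ E := Finset.sum_nonneg (fun l _ => mul_nonneg (hS.nn l)
      (by have := one_le_pow₀ hμ (n := b + 1 - lo l); linarith))
    have h1 : 2 * x * E ≤ Real.exp (-(X0 * C0)) := by
      have h2 : 2 * X0 * (E * (1 - μ * ρ)) ≤ (1 - μ * ρ) * Real.exp (-(X0 * C0)) :=
        (mul_le_mul_of_nonneg_left hab2 (by linarith)).trans hc
      have h3 : 0 < 1 - μ * ρ := by linarith
      have h4 : (1 - μ * ρ) * (2 * X0 * E) ≤ (1 - μ * ρ) * Real.exp (-(X0 * C0)) := by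
        calc (1 - μ * ρ) * (2 * X0 * E) = 2 * X0 * (E * (1 - μ * ρ)) := by ring
          _ ≤ _ := h2
      have h5 := le_of_mul_le_mul_left h4 h3
      have h6 : 2 * x * E ≤ 2 * X0 * E := by
        apply mul_le_mul_of_nonneg_right _ hE0
        linarith
      linarith
    have h2 : Real.exp (-(X0 * C0)) * Z (wx wt x) A ≤ Z (wx wt x) (A \ S) := by
      have h3 : Real.exp (-(X0 * C0)) ≤ Real.exp (-(x * C0)) := by
        apply Real.exp_le_exp.2
        have := mul_le_mul_of_nonneg_right hx hC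
        linarith
      calc Real.exp (-(X0 * C0)) * Z (wx wt x) A ≤ Real.exp (-(x * C0)) * Z (wx wt x) A :=
            mul_le_mul_of_nonneg_right h3 hZ.le
        _ ≤ Real.exp (-(x * C0)) * (Z (wx wt x) (A \ S) * Real.exp (x * C0)) :=
            mul_le_mul_of_nonneg_left hZc (Real.exp_pos _).le
        _ = Z (wx wt x) (A \ S) * (Real.exp (-(x * C0)) * Real.exp (x * C0)) := by ring
        _ = Z (wx wt x) (A \ S) := by
            rw [← Real.exp_add, neg_add_cancel, Real.exp_zero, mul_one]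
    have h3 : 2 * Z (wx wt x) A * (x * ∑ l ∈ A ∩ S, wt l * (μ ^ (b + 1 - lo l) - 1)) ≤
        Z (wx wt x) A * Real.exp (-(X0 * C0)) := by
      calc 2 * Z (wx wt x) A * (x * ∑ l ∈ A ∩ S, wt l * (μ ^ (b + 1 - lo l) - 1))
          ≤ 2 * Z (wx wt x) A * (x * E) := by
            apply mul_le_mul_of_nonneg_left _ (by linarith)
            exact mul_le_mul_of_nonneg_left hab hx0
        _ = Z (wx wt x) A * (2 * x * E) := by ring
        _ ≤ _ := mul_le_mul_of_nonneg_left h1 hZ.le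
    linarith

end NUPZ
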